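import Pool.Agent.DCN.Defs

/-!
# DCN-Avg: expectations and averages over a coordinate

Linearity and monotonicity of the expectation; the expectation of an average over a coordinate (the map
`(s, z) ↦ (update s a z, s a)` is an involution of `(ι → V) × V`).
-/

namespace Pool.Agent.DCN

open Finset

variable {V : Type} [Fintype V] [DecidableEq V] {ι : Type} [Fintype ι] [DecidableEq ι]

theorem EE_add (f g : (ι → V) → ℝ) : EE (fun s => f s + g s) = EE f + EE g := by
  unfold EE
  rw [Finset.sum_add_distrib, add_div]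

theorem EE_sub (f g : (ι → V) → ℝ) : EE (fun s => f s - g s) = EE f - EE g := by
  unfold EE
  rw [Finset.sum_sub_distrib, sub_div]

theorem EE_mul_left (c : ℝ) (f : (ι → V) → ℝ) : EE (fun s => c * f s) = c * EE f := by
  unfold EE
  rw [← Finset.mul_sum, mul_div_assoc]

theorem EE_sum {κ : Type} (T : Finset κ) (f : κ → (ι → V) → ℝ) :
    EE (fun s => ∑ t ∈ T, f t s) = ∑ t ∈ T, EE (f t) := by
  unfold EE
  rw [Finset.sum_comm, Finset.sum_div]

theorem EE_mono {f g : (ι → V) → ℝ} (h : ∀ s, f s ≤ g s) : EE f ≤ EE g := by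
  unfold EE
  exact div_le_div_of_nonneg_right (Finset.sum_le_sum fun s _ => h s) (by positivity)

theorem EE_nonneg {f : (ι → V) → ℝ} (h : ∀ s, 0 ≤ f s) : 0 ≤ EE f := by
  unfold EE
  exact div_nonneg (Finset.sum_nonneg fun s _ => h s) (by positivity)

theorem EE_const [Nonempty V] (c : ℝ) : EE (fun _ : ι → V => c) = c := by
  unfold EE
  rw [Finset.sum_const, Finset.card_univ, Fintype.card_fun, nsmul_eq_mul, Nat.cast_pow]
  have h : (Fintype.card V : ℝ) ^ Fintype.card ι ≠ 0 :=
    pow_ne_zero _ (Nat.cast_ne_zero.2 Fintype.card_ne_zero)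
  field_simp

/-- permutation of the coordinates -/
theorem EE_perm (σ : Equiv.Perm ι) (f : (ι → V) → ℝ) :
    EE (fun s => f (fun i => s (σ i))) = EE f := by
  unfold EE
  congr 1
  exact Equiv.sum_comp (Equiv.arrowCongr σ.symm (Equiv.refl V)) f

private theorem avg_inv (a : ι) (s : ι → V) (z : V) :
    Function.update (Function.update s a z) a (s a) = s := by
  rw [Function.update_idem, Function.update_eq_self]

theorem EE_avg [Nonempty V] (a : ι) (f : (ι → V) → ℝ) : EE (avg a f) = EE f := by
  unfold EE avg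
  congr 1
  have hn : (Fintype.card V : ℝ) ≠ 0 := Nat.cast_ne_zero.2 Fintype.card_ne_zero
  let e : (ι → V) × V ≃ (ι → V) × V :=
    { toFun := fun p => (Function.update p.1 a p.2, p.1 a)
      invFun := fun p => (Function.update p.1 a p.2, p.1 a)
      left_inv := fun p => by
        refine Prod.ext ?_ ?_
        · exact avg_inv a p.1 p.2
        · exact Function.update_self a p.2 p.1
      right_inv := fun p => by
        refine Prod.ext ?_ ?_
        · exact avg_inv a p.1 p.2
        · exact Function.update_self a p.2 p.1 }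
  rw [← Finset.sum_div, div_eq_iff hn]
  have h1 : ∑ p : (ι → V) × V, f (e p).1 = ∑ p : (ι → V) × V, f p.1 :=
    Equiv.sum_comp e fun p => f p.1
  rw [Fintype.sum_prod_type, Fintype.sum_prod_type] at h1
  refine Eq.trans h1 ?_
  simp only [Finset.sum_const, Finset.card_univ, nsmul_eq_mul]
  rw [← Finset.mul_sum, mul_comm]

theorem ind_avg (a : ι) (f : (ι → V) → ℝ) : Ind a (avg a f) := by
  intro s z
  unfold avg
  simp only [Function.update_idem]

theorem ind_avg_of {a b : ι} {f : (ι → V) → ℝ} (h : Ind b f) : Ind b (avg a f) := by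
  intro s z
  unfold avg
  congr 1
  refine Finset.sum_congr rfl fun x _ => ?_
  by_cases hab : a = b
  · subst hab
    rw [Function.update_idem]
  · rw [Function.update_comm (Ne.symm hab), h]

theorem ind_mul {a : ι} {f g : (ι → V) → ℝ} (hf : Ind a f) (hg : Ind a g) :
    Ind a (fun s => f s * g s) := by
  intro s z
  change f _ * g _ = _
  rw [hf s z, hg s z]

theorem avg_mul {a : ι} {f g : (ι → V) → ℝ} (hg : Ind a g) (s : ι → V) :
    avg a (fun s => g s * f s) s = g s * avg a f s := by
  unfold avg
  rw [← mul_div_assoc, Finset.mul_sum]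
  congr 1
  refine Finset.sum_congr rfl fun z _ => ?_
  change g (Function.update s a z) * f (Function.update s a z) = _
  rw [hg s z]

theorem avg_mono {a : ι} {f g : (ι → V) → ℝ} (h : ∀ s, f s ≤ g s) (s : ι → V) :
    avg a f s ≤ avg a g s := by
  unfold avg
  exact div_le_div_of_nonneg_right (Finset.sum_le_sum fun z _ => h _) (by positivity)

theorem avg_add (a : ι) (f g : (ι → V) → ℝ) (s : ι → V) :
    avg a (fun s => f s + g s) s = avg a f s + avg a g s := by
  unfold avg
  rw [Finset.sum_add_distrib, add_div]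

theorem avg_const [Nonempty V] (a : ι) (c : ℝ) (s : ι → V) : avg a (fun _ => c) s = c := by
  unfold avg
  rw [Finset.sum_const, Finset.card_univ, nsmul_eq_mul]
  have h : (Fintype.card V : ℝ) ≠ 0 := Nat.cast_ne_zero.2 Fintype.card_ne_zero
  field_simp

theorem EE_mul_avg [Nonempty V] {a b : ι} {f g : (ι → V) → ℝ} (hf : Ind b f) (hg : Ind a g) :
    EE (fun s => f s * g s) = EE (fun s => avg a f s * avg b g s) := by
  rw [← EE_avg b (fun s => f s * g s)]
  have h1 : avg b (fun s => f s * g s) = fun s => avg b g s * f s := by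
    funext s
    rw [avg_mul hf s, mul_comm]
  rw [h1, ← EE_avg a (fun s => avg b g s * f s)]
  have h2 : avg a (fun s => avg b g s * f s) = fun s => avg a f s * avg b g s := by
    funext s
    rw [avg_mul (ind_avg_of hg) s, mul_comm]
  rw [h2]

/-- first moment from second moment: `E w |f| ≤ (t E w + E w f² / t) / 2` -/
theorem EE_abs_le {w f : (ι → V) → ℝ} (hw : ∀ s, 0 ≤ w s) {t : ℝ} (ht : 0 < t) :
    EE (fun s => w s * |f s|) ≤ (t * EE w + EE (fun s => w s * f s ^ 2) / t) / 2 := by
  have h1 : EE (fun s => w s * |f s|) ≤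
      EE (fun s => (t / 2) * w s + (1 / (2 * t)) * (w s * f s ^ 2)) := by
    refine EE_mono fun s => ?_
    have h2 : |f s| ≤ t / 2 + 1 / (2 * t) * f s ^ 2 := by
      have h3 : 0 ≤ (|f s| - t) ^ 2 := sq_nonneg _
      have h4 : |f s| ^ 2 = f s ^ 2 := sq_abs _
      have h5 : t / 2 + 1 / (2 * t) * f s ^ 2 = (t ^ 2 + f s ^ 2) / (2 * t) := by
        field_simp
      rw [h5, le_div_iff₀ (by positivity)]
      nlinarith
    calc w s * |f s| ≤ w s * (t / 2 + 1 / (2 * t) * f s ^ 2) := mul_le_mul_of_nonneg_left h2 (hw s)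
      _ = _ := by ring
  refine h1.trans (le_of_eq ?_)
  rw [EE_add (fun s => (t / 2) * w s) (fun s => (1 / (2 * t)) * (w s * f s ^ 2)), EE_mul_left,
    EE_mul_left (1 / (2 * t)) (fun s => w s * f s ^ 2)]
  field_simp

end Pool.Agent.DCN
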