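import Mathlib

/-!
# DCN-Chain: the chain of inequalities, real numbers only

With `u j = 1 - p j / p (j - 1)` the recursion says `(j - k + 1) u (j + 1) ≤ j u j`, hence `u j ≤ u k C(j-1, k-1)`
(`chain_up`). At the top `u m = 1` and `u k` is nearly as small as possible, so the last three steps are nearly sharp
(`chain_top`).
-/

namespace Pool.Agent.DCN

private theorem chain_choose {k j : ℕ} (hk : 1 ≤ k) (hj : k ≤ j) :
    ((j - 1).choose (k - 1) : ℝ) * j = (j.choose (k - 1) : ℝ) * ((j : ℝ) - k + 1) := by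
  obtain ⟨k, rfl⟩ : ∃ k', k = k' + 1 := ⟨k - 1, by omega⟩
  obtain ⟨j, rfl⟩ : ∃ j', j = j' + 1 := ⟨j - 1, by omega⟩
  have h := Nat.choose_mul_succ_eq j k
  have h1 : ((j.choose k * (j + 1) : ℕ) : ℝ) = (((j + 1).choose k * (j + 1 - k) : ℕ) : ℝ) := by
    rw [h]
  rw [Nat.cast_mul, Nat.cast_mul, Nat.cast_sub (by omega)] at h1
  simp only [Nat.add_sub_cancel]
  push_cast at h1 ⊢
  rw [h1]
  ring

private theorem chain_step {p : ℕ → ℝ} {k i : ℕ} (h0 : 0 < p i)
    (hrec : (i : ℝ) * (p i ^ 2 / p (i - 1)) ≤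
      (i : ℝ) * p (i + 1) + ((k : ℝ) - 1) * (p i - p (i + 1))) :
    ((i : ℝ) - k + 1) * (1 - p (i + 1) / p i) ≤ (i : ℝ) * (1 - p i / p (i - 1)) := by
  have h2 : (i : ℝ) * (p i / p (i - 1)) * p i ≤
      ((i : ℝ) * (p (i + 1) / p i) + ((k : ℝ) - 1) * (1 - p (i + 1) / p i)) * p i := by
    have h3 : (i : ℝ) * (p i / p (i - 1)) * p i = (i : ℝ) * (p i ^ 2 / p (i - 1)) := by ring
    have h4 : ((i : ℝ) * (p (i + 1) / p i) + ((k : ℝ) - 1) * (1 - p (i + 1) / p i)) * p i =
        (i : ℝ) * p (i + 1) + ((k : ℝ) - 1) * (p i - p (i + 1)) := by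
      field_simp
    rw [h3, h4]
    exact hrec
  have h5 := le_of_mul_le_mul_right h2 h0
  linarith

theorem chain_up {p : ℕ → ℝ} {k j : ℕ} (hk : 1 ≤ k) (hj : k ≤ j)
    (hpos : ∀ i, k - 1 ≤ i → i < j → 0 < p i)
    (hrec : ∀ i, k ≤ i → i < j → (i : ℝ) * (p i ^ 2 / p (i - 1)) ≤
      (i : ℝ) * p (i + 1) + ((k : ℝ) - 1) * (p i - p (i + 1))) :
    1 - p j / p (j - 1) ≤ (1 - p k / p (k - 1)) * ((j - 1).choose (k - 1) : ℝ) := by
  induction j, hj using Nat.le_induction with
  | base => rw [Nat.choose_self, Nat.cast_one, mul_one]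
  | succ j hj ih =>
    have h1 := ih (fun i h h' => hpos i h (by omega)) (fun i h h' => hrec i h (by omega))
    have h2 := chain_step (k := k) (hpos j (by omega) (by omega)) (hrec j hj (by omega))
    have h3 := chain_choose hk hj
    have h4 : 0 < (j : ℝ) - k + 1 := by
      have : (k : ℝ) ≤ j := by exact_mod_cast hj
      linarith
    rw [Nat.add_sub_cancel]
    have h5 : ((j : ℝ) - k + 1) * (1 - p (j + 1) / p j) ≤
        ((j : ℝ) - k + 1) * ((1 - p k / p (k - 1)) * (j.choose (k - 1) : ℝ)) := by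
      calc ((j : ℝ) - k + 1) * (1 - p (j + 1) / p j) ≤ (j : ℝ) * (1 - p j / p (j - 1)) := h2
        _ ≤ (j : ℝ) * ((1 - p k / p (k - 1)) * ((j - 1).choose (k - 1) : ℝ)) :=
            mul_le_mul_of_nonneg_left h1 (Nat.cast_nonneg j)
        _ = ((1 - p k / p (k - 1))) * (((j - 1).choose (k - 1) : ℝ) * j) := by ring
        _ = ((j : ℝ) - k + 1) * ((1 - p k / p (k - 1)) * (j.choose (k - 1) : ℝ)) := by
            rw [h3]; ring
    exact le_of_mul_le_mul_left h5 h4

/-- `ρ = (k - 1)/(m - 1)` -/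
theorem chain_top {p : ℕ → ℝ} {k m : ℕ} (hk : 2 ≤ k) (hkm : k + 2 ≤ m) {c : ℝ} (hc0 : 0 ≤ c)
    (hc : c ≤ ((k : ℝ) - 1) / ((m : ℝ) - 1)) (hnn : ∀ i, 0 ≤ p i) (hp1 : p (k - 1) = 1) (hpm : p m = 0)
    (hrec : ∀ i, k ≤ i → i < m → 0 < p (i - 1) → (i : ℝ) * (p i ^ 2 / p (i - 1)) ≤
      (i : ℝ) * p (i + 1) + ((k : ℝ) - 1) * (p i - p (i + 1)))
    (hd : 1 - p k < (1 + c) / ((m - 1).choose (k - 1) : ℝ)) :
    0 < p (m - 1) ∧ 0 < p (m - 2) ∧ 0 < p (m - 3) ∧
      (((m : ℝ) - k) / ((m : ℝ) - 1) ≤ 1 - p (m - 1) / p (m - 2)) ∧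
      (1 - p (m - 1) / p (m - 2) ≤ (1 + c) * (((m : ℝ) - k) / ((m : ℝ) - 1))) ∧
      (1 - p (m - 2) / p (m - 3) ≤
        (1 + c) * ((((m : ℝ) - k) / ((m : ℝ) - 1)) * (((m : ℝ) - k - 1) / ((m : ℝ) - 2)))) := by
  have hkR : (2 : ℝ) ≤ k := by exact_mod_cast hk
  have hmR : (k : ℝ) + 2 ≤ m := by exact_mod_cast hkm
  have hC : 0 < ((m - 1).choose (k - 1) : ℝ) := by
    exact_mod_cast Nat.choose_pos (by omega)
  have hu : 1 - p k / p (k - 1) = 1 - p k := by rw [hp1, div_one]
  have e1 : ((m - 2).choose (k - 1) : ℝ) * ((m : ℝ) - 1) =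
      ((m - 1).choose (k - 1) : ℝ) * ((m : ℝ) - k) := by
    have h := chain_choose (k := k) (j := m - 1) (by omega) (by omega)
    have h' : m - 1 - 1 = m - 2 := by omega
    rw [h', Nat.cast_sub (by omega)] at h
    push_cast at h
    rw [h]
    ring
  have e2 : ((m - 3).choose (k - 1) : ℝ) * ((m : ℝ) - 2) =
      ((m - 2).choose (k - 1) : ℝ) * ((m : ℝ) - k - 1) := by
    have h := chain_choose (k := k) (j := m - 2) (by omega) (by omega)
    have h' : m - 2 - 1 = m - 3 := by omega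
    rw [h', Nat.cast_sub (by omega)] at h
    push_cast at h
    rw [h]
    ring
  have f1 : ((m - 2).choose (k - 1) : ℝ) / ((m - 1).choose (k - 1) : ℝ) =
      ((m : ℝ) - k) / ((m : ℝ) - 1) := by
    rw [div_eq_div_iff hC.ne' (by linarith), e1]
    ring
  have f2 : ((m - 3).choose (k - 1) : ℝ) / ((m - 1).choose (k - 1) : ℝ) =
      (((m : ℝ) - k) / ((m : ℝ) - 1)) * (((m : ℝ) - k - 1) / ((m : ℝ) - 2)) := by
    have h2 : (0 : ℝ) < (m : ℝ) - 2 := by linarith
    rw [← f1, div_mul_div_comm, div_eq_div_iff hC.ne' (mul_pos hC h2).ne']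
    calc ((m - 3).choose (k - 1) : ℝ) * (((m - 1).choose (k - 1) : ℝ) * ((m : ℝ) - 2)) =
          (((m - 3).choose (k - 1) : ℝ) * ((m : ℝ) - 2)) * ((m - 1).choose (k - 1) : ℝ) := by ring
      _ = _ := by rw [e2]
  -- an upper bound from `hd`
  have hdd : ∀ t : ℝ, 0 ≤ t → (1 - p k) * t ≤ (1 + c) * (t / ((m - 1).choose (k - 1) : ℝ)) := by
    intro t ht
    have h := mul_le_mul_of_nonneg_right hd.le ht
    calc (1 - p k) * t ≤ (1 + c) / ((m - 1).choose (k - 1) : ℝ) * t := h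
      _ = _ := by ring
  have hpos : ∀ i, k - 1 ≤ i → i < m → 0 < p i := by
    intro i
    induction i using Nat.strong_induction_on with
    | _ i ih =>
      intro h1 h2
      rcases Nat.eq_or_lt_of_le h1 with h3 | h3
      · rw [← h3, hp1]
        exact one_pos
      · refine lt_of_le_of_ne (hnn i) (fun h0 => ?_)
        have h4 : ∀ l, k - 1 ≤ l → l < i → 0 < p l := fun l hl hl' => ih l hl' hl (by omega)
        have h5 := chain_up (p := p) (k := k) (j := i) (by omega) (by omega) h4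
          (fun l hl hl' => hrec l hl (by omega) (h4 (l - 1) (by omega) (by omega)))
        rw [← h0, zero_div, sub_zero, hu] at h5
        have h6 : ((i - 1).choose (k - 1) : ℝ) ≤ ((m - 2).choose (k - 1) : ℝ) := by
          exact_mod_cast Nat.choose_le_choose _ (by omega)
        have h7 : 0 < 1 - p k := by
          by_contra hcon
          have h8 : (1 - p k) * ((i - 1).choose (k - 1) : ℝ) ≤ 0 :=
            mul_nonpos_of_nonpos_of_nonneg (not_lt.1 hcon) (Nat.cast_nonneg _)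
          linarith
        have h8 : (1 : ℝ) ≤ (1 - p k) * ((m - 2).choose (k - 1) : ℝ) :=
          h5.trans (mul_le_mul_of_nonneg_left h6 h7.le)
        have h9 := hdd _ (Nat.cast_nonneg ((m - 2).choose (k - 1)))
        rw [f1] at h9
        have h10 : (1 + c) * (((m : ℝ) - k) / ((m : ℝ) - 1)) < 1 := by
          have hm1 : (0 : ℝ) < (m : ℝ) - 1 := by linarith
          have h11 : 1 + c ≤ ((m : ℝ) - 1 + (k - 1)) / ((m : ℝ) - 1) := by
            rw [add_div, div_self hm1.ne']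
            linarith
          have h12 : 0 < ((m : ℝ) - k) / ((m : ℝ) - 1) := div_pos (by linarith) hm1
          calc (1 + c) * (((m : ℝ) - k) / ((m : ℝ) - 1)) ≤
                ((m : ℝ) - 1 + (k - 1)) / ((m : ℝ) - 1) * (((m : ℝ) - k) / ((m : ℝ) - 1)) :=
              mul_le_mul_of_nonneg_right h11 h12.le
            _ < 1 := by
              rw [div_mul_div_comm, div_lt_one (mul_pos hm1 hm1)]
              have hk1 : (0 : ℝ) < (k : ℝ) - 1 := by linarith
              nlinarith [mul_pos hk1 hk1]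
        linarith
  have hup : ∀ j, k ≤ j → j ≤ m →
      1 - p j / p (j - 1) ≤ (1 - p k) * ((j - 1).choose (k - 1) : ℝ) := by
    intro j hj hj'
    have h := chain_up (p := p) (k := k) (j := j) (by omega) hj
      (fun i hi hi' => hpos i hi (by omega))
      (fun i hi hi' => hrec i hi (by omega) (hpos (i - 1) (by omega) (by omega)))
    rwa [hu] at h
  refine ⟨hpos _ (by omega) (by omega), hpos _ (by omega) (by omega), hpos _ (by omega) (by omega),
    ?_, ?_, ?_⟩
  · have h := chain_step (k := k) (hpos (m - 1) (by omega) (by omega))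
      (hrec (m - 1) (by omega) (by omega) (hpos _ (by omega) (by omega)))
    have h' : m - 1 - 1 = m - 2 := by omega
    have h'' : m - 1 + 1 = m := by omega
    rw [h', h'', hpm, zero_div, sub_zero, mul_one, Nat.cast_sub (by omega)] at h
    push_cast at h
    rw [div_le_iff₀ (by linarith)]
    linarith
  · have h := hup (m - 1) (by omega) (by omega)
    have h' : m - 1 - 1 = m - 2 := by omega
    rw [h'] at h
    refine h.trans ((hdd _ (Nat.cast_nonneg _)).trans ?_)
    rw [f1]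
  · have h := hup (m - 2) (by omega) (by omega)
    have h' : m - 2 - 1 = m - 3 := by omega
    rw [h'] at h
    refine h.trans ((hdd _ (Nat.cast_nonneg _)).trans ?_)
    rw [f2]

end Pool.Agent.DCN
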