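import Pool.Agent.DCN.Avg

/-!
# DCN-ClB: the indicator `cl`, the numbers `pn`, exchange of the new coordinate

The indicator of the tuples without an edge is antitone and multiplicative in the index set, depends only on the
coordinates of the index set and is compatible with permutations of the coordinates; its expectation depends only on the
number of indices.
-/

namespace Pool.Agent.DCN

open Finset

variable {V : Type} [Fintype V] [DecidableEq V] {ι : Type} [Fintype ι] [DecidableEq ι]

variable {F : Multiset V → Prop} {k : ℕ}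

theorem Cl_mono {s : ι → V} {J J' : Finset ι} (h : Cl F k s J) (h' : J' ⊆ J) : Cl F k s J' :=
  fun I hI => h I (hI.trans h')

theorem cl_nonneg (J : Finset ι) (s : ι → V) : 0 ≤ cl F k J s := by
  unfold cl
  split_ifs <;> norm_num

theorem cl_le_one (J : Finset ι) (s : ι → V) : cl F k J s ≤ 1 := by
  unfold cl
  split_ifs <;> norm_num

theorem cl_of {J : Finset ι} {s : ι → V} (h : Cl F k s J) : cl F k J s = 1 := if_pos h

theorem cl_of_not {J : Finset ι} {s : ι → V} (h : ¬ Cl F k s J) : cl F k J s = 0 := if_neg h

private theorem cl_congr {s s' : ι → V} {J J' : Finset ι} (h : Cl F k s J ↔ Cl F k s' J') :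
    cl F k J s = cl F k J' s' := by
  by_cases h1 : Cl F k s J
  · rw [cl_of h1, cl_of (h.1 h1)]
  · rw [cl_of_not h1, cl_of_not fun h2 => h1 (h.2 h2)]

private theorem ClB_perm (σ : Equiv.Perm ι) (J : Finset ι) (s : ι → V) :
    Cl F k (fun i => s (σ i)) J ↔ Cl F k s (J.map σ.toEmbedding) := by
  constructor
  · intro h I hI hc hF
    refine h (I.map σ.symm.toEmbedding) ?_ ?_ ?_
    · intro i hi
      rw [Finset.mem_map] at hi
      obtain ⟨j, hj, rfl⟩ := hi
      have h2 := hI hj
      rw [Finset.mem_map] at h2
      obtain ⟨l, hl, rfl⟩ := h2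
      simpa using hl
    · rw [Finset.card_map, hc]
    · rw [Finset.map_val, Multiset.map_map]
      have h3 : ((fun i => s (σ i)) ∘ ⇑σ.symm.toEmbedding) = s := by
        funext i
        simp
      rw [h3]
      exact hF
  · intro h I hI hc hF
    refine h (I.map σ.toEmbedding) (Finset.map_subset_map.2 hI) ?_ ?_
    · rw [Finset.card_map, hc]
    · rw [Finset.map_val, Multiset.map_map]
      exact hF

private theorem ClB_ind {a : ι} {J : Finset ι} (ha : a ∉ J) (s : ι → V) (z : V) :
    Cl F k (Function.update s a z) J ↔ Cl F k s J := by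
  have h : ∀ I ⊆ J, I.val.map (Function.update s a z) = I.val.map s := by
    intro I hI
    refine Multiset.map_congr rfl fun i hi => ?_
    have h1 : i ≠ a := fun h2 => ha (hI (h2 ▸ hi))
    exact Function.update_of_ne h1 z s
  unfold Cl
  refine forall_congr' fun I => forall_congr' fun hI => ?_
  rw [h I hI]

private theorem ClB_exists_perm {J J' : Finset ι} (h : J.card = J'.card) :
    ∃ σ : Equiv.Perm ι, J.map σ.toEmbedding = J' := by
  have e : {x // x ∈ J} ≃ {x // x ∈ J'} := Finset.equivOfCardEq h
  refine ⟨e.extendSubtype, ?_⟩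
  refine Finset.eq_of_subset_of_card_le ?_ ?_
  · intro i hi
    rw [Finset.mem_map] at hi
    obtain ⟨j, hj, rfl⟩ := hi
    exact e.extendSubtype_mem j hj
  · rw [Finset.card_map, h]

private theorem ClB_exists_card {j : ℕ} (hj : j ≤ Fintype.card ι) :
    ∃ J : Finset ι, J.card = j := by
  obtain ⟨J, -, hJ⟩ := Finset.exists_subset_card_eq (s := (Finset.univ : Finset ι)) (n := j)
    (by rw [Finset.card_univ]; exact hj)
  exact ⟨J, hJ⟩

theorem cl_anti {J J' : Finset ι} (h : J' ⊆ J) (s : ι → V) : cl F k J s ≤ cl F k J' s := by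
  by_cases h1 : Cl F k s J
  · rw [cl_of h1, cl_of (Cl_mono h1 h)]
  · rw [cl_of_not h1]
    exact cl_nonneg J' s

theorem cl_mul_self (J : Finset ι) (s : ι → V) : cl F k J s * cl F k J s = cl F k J s := by
  by_cases h1 : Cl F k s J
  · rw [cl_of h1, one_mul]
  · rw [cl_of_not h1, zero_mul]

theorem cl_mul_of_sub {J J' : Finset ι} (h : J' ⊆ J) (s : ι → V) :
    cl F k J' s * cl F k J s = cl F k J s := by
  by_cases h1 : Cl F k s J
  · rw [cl_of h1, cl_of (Cl_mono h1 h), one_mul]
  · rw [cl_of_not h1, mul_zero]

theorem cl_perm (σ : Equiv.Perm ι) (J : Finset ι) (s : ι → V) :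
    cl F k J (fun i => s (σ i)) = cl F k (J.map σ.toEmbedding) s := by
  exact cl_congr (ClB_perm σ J s)

theorem ind_cl {a : ι} {J : Finset ι} (ha : a ∉ J) : Ind a (cl F k J : (ι → V) → ℝ) := by
  intro s z
  exact cl_congr (ClB_ind ha s z)

theorem EE_cl (J : Finset ι) : EE (cl F k J : (ι → V) → ℝ) = pn F k ι J.card := by
  have h : ∃ J' : Finset ι, J'.card = J.card := ⟨J, rfl⟩
  unfold pn
  rw [dif_pos h]
  obtain ⟨σ, hσ⟩ := ClB_exists_perm (h.choose_spec).symm
  have h1 : (fun s : ι → V => cl F k J (fun i => s (σ i))) = cl F k h.choose := by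
    funext s
    rw [cl_perm, hσ]
  rw [← EE_perm σ (cl F k J : (ι → V) → ℝ), h1]

/-- tuples of less than `k` elements contain no edge -/
theorem pn_small [Nonempty V] {j : ℕ} (hj : j < k) (hj' : j ≤ Fintype.card ι) :
    pn (V := V) F k ι j = 1 := by
  obtain ⟨J, hJ⟩ := ClB_exists_card hj'
  rw [← hJ, ← EE_cl J]
  have h : (cl F k J : (ι → V) → ℝ) = fun _ => 1 := by
    funext s
    refine cl_of fun I hI hc => ?_
    have := Finset.card_le_card hI
    omega
  rw [h, EE_const]

theorem pn_nonneg (j : ℕ) : 0 ≤ pn (V := V) F k ι j := by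
  unfold pn
  split_ifs with h
  · exact EE_nonneg fun s => cl_nonneg _ s
  · exact le_refl 0

theorem pn_anti {j : ℕ} (hj : j + 1 ≤ Fintype.card ι) :
    pn (V := V) F k ι (j + 1) ≤ pn (V := V) F k ι j := by
  obtain ⟨J, hJ⟩ := ClB_exists_card hj
  have hne : J.Nonempty := by
    rw [← Finset.card_pos]
    omega
  obtain ⟨a, ha⟩ := hne
  have h1 : (J.erase a).card = j := by
    rw [Finset.card_erase_of_mem ha, hJ, Nat.add_sub_cancel]
  rw [← hJ, ← EE_cl J, ← h1, ← EE_cl (J.erase a)]
  exact EE_mono fun s => cl_anti (Finset.erase_subset a J) s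

theorem pn_top {m : ℕ} (hT : Tu F k m (V := V) ι) (hm : m ≤ Fintype.card ι) :
    pn (V := V) F k ι m = 0 := by
  obtain ⟨J, hJ⟩ := ClB_exists_card hm
  rw [← hJ, ← EE_cl J]
  have h : (cl F k J : (ι → V) → ℝ) = fun _ => 0 := by
    funext s
    exact cl_of_not (hT s J hJ)
  rw [h]
  unfold EE
  simp

private theorem ClB_swap {x y : ι} {D : Finset ι} (hx : x ∉ D) (hy : y ∉ D) (s : ι → V) (z : V) :
    cl F k (insert x D) (Function.update s x z) = cl F k (insert y D) (Function.update s y z) := by
  by_cases hxy : x = y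
  · subst hxy
    rfl
  have h1 : (fun i => Function.update s y z (Equiv.swap x y i)) =
      Function.update (Function.update s x z) y (s x) := by
    funext i
    by_cases hiy : i = y
    · subst hiy
      rw [Equiv.swap_apply_right, Function.update_self, Function.update_of_ne hxy]
    · by_cases hix : i = x
      · subst hix
        rw [Equiv.swap_apply_left, Function.update_self, Function.update_of_ne hiy,
          Function.update_self]
      · rw [Equiv.swap_apply_of_ne_of_ne hix hiy, Function.update_of_ne hiy,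
          Function.update_of_ne hiy, Function.update_of_ne hix]
  have h2 : (insert x D).map (Equiv.swap x y).toEmbedding = insert y D := by
    ext i
    rw [Finset.mem_map, Finset.mem_insert]
    constructor
    · rintro ⟨j, hj, rfl⟩
      rcases Finset.mem_insert.1 hj with rfl | hj
      · left
        exact Equiv.swap_apply_left _ _
      · right
        have h3 : j ≠ x := fun h => hx (h ▸ hj)
        have h4 : j ≠ y := fun h => hy (h ▸ hj)
        change Equiv.swap x y j ∈ D
        rw [Equiv.swap_apply_of_ne_of_ne h3 h4]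
        exact hj
    · rintro (rfl | hi)
      · exact ⟨x, Finset.mem_insert_self _ _, Equiv.swap_apply_left _ _⟩
      · have h3 : i ≠ x := fun h => hx (h ▸ hi)
        have h4 : i ≠ y := fun h => hy (h ▸ hi)
        exact ⟨i, Finset.mem_insert_of_mem hi, Equiv.swap_apply_of_ne_of_ne h3 h4⟩
  have h3 : y ∉ insert x D := by
    rw [Finset.mem_insert, not_or]
    exact ⟨fun h => hxy h.symm, hy⟩
  rw [← h2, ← cl_perm, h1]
  exact (ind_cl h3 (Function.update s x z) (s x)).symm

/-- the average over the new coordinate does not depend on its name -/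
theorem avg_swap {x y : ι} {D : Finset ι} (hx : x ∉ D) (hy : y ∉ D) (s : ι → V) :
    avg x (cl F k (insert x D)) s = avg y (cl F k (insert y D)) s := by
  unfold avg
  congr 1
  exact Finset.sum_congr rfl fun z _ => ClB_swap hx hy s z

theorem avg_swap_mul {x y : ι} {D D' : Finset ι} (hx : x ∉ D) (hy : y ∉ D) (hx' : x ∉ D')
    (hy' : y ∉ D') (s : ι → V) :
    avg x (fun s => cl F k (insert x D) s * cl F k (insert x D') s) s =
      avg y (fun s => cl F k (insert y D) s * cl F k (insert y D') s) s := by
  unfold avg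
  congr 1
  refine Finset.sum_congr rfl fun z _ => ?_
  change cl F k (insert x D) (Function.update s x z) * cl F k (insert x D') (Function.update s x z) =
    cl F k (insert y D) (Function.update s y z) * cl F k (insert y D') (Function.update s y z)
  rw [ClB_swap hx hy s z, ClB_swap hx' hy' s z]

end Pool.Agent.DCN
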