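import Pool.Agent.DCN.ClB

/-!
# DCN-Comb: combinatorics of the kernels (paper section 2)

`kr_sub_edge`: if `a ∈ Kr` is not in the edge `E ⊆ insert x C` then `E ⊆ insert x (C.erase a)`, which contains
no edge.  `mem_edge`: otherwise `E ⊆ C`.  `kr_card`: `C ∪ x` contains an edge `E ∋ x`, `Kr ⊆ E.erase x`.
`t_bound`: `v ∉ Kr C y`: an edge `B ⊆ insert y (C.erase v)`, `y ∈ B`; `B ⊆ insert y C` and
`B ⊆ insert y (insert x (C.erase v))`; both kernels are contained in `B.erase y` (`kr_sub_edge`), which has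
`k - 1` elements.
`pair_count`: an edge `E ⊆ insert x C`, `x ∈ E`; `Cl (insert x ((C.erase a).erase b))` gives `a ∈ E` or `b ∈ E`; so
the set is contained in `R ×ˢ C ∪ C ×ˢ R`, `R = (E.erase x) \ Kr`, `|R| = k - 1 - |Kr| = De`.
-/

namespace Pool.Agent.DCN

open Finset

variable {V : Type} [Fintype V] [DecidableEq V] {ι : Type} [Fintype ι] [DecidableEq ι]

variable {F : Multiset V → Prop} {k : ℕ}

theorem exists_edge {s : ι → V} {J : Finset ι} (h : ¬ Cl F k s J) :
    ∃ I ⊆ J, I.card = k ∧ F (I.val.map s) := by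
  unfold Cl at h
  push Not at h
  exact h

theorem kr_sub_edge {s : ι → V} {C E : Finset ι} {x : ι} (hx : x ∉ C) (hE : E ⊆ insert x C)
    (hc : E.card = k) (hF : F (E.val.map s)) : Kr F k s C x ⊆ E := by
  classical
  intro a ha
  unfold Kr at ha
  rw [Finset.mem_filter] at ha
  by_contra haE
  refine ha.2 E (fun b hb => ?_) hc hF
  rcases Finset.mem_insert.1 (hE hb) with h1 | h1
  · rw [h1]
    exact Finset.mem_insert_self _ _
  · refine Finset.mem_insert_of_mem (Finset.mem_erase.2 ⟨?_, h1⟩)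
    rintro rfl
    exact haE hb

theorem mem_edge {s : ι → V} {C E : Finset ι} {x : ι} (hC : Cl F k s C) (hE : E ⊆ insert x C)
    (hc : E.card = k) (hF : F (E.val.map s)) : x ∈ E := by
  by_contra hx
  refine hC E (fun b hb => ?_) hc hF
  rcases Finset.mem_insert.1 (hE hb) with h1 | h1
  · rw [h1] at hb
    exact absurd hb hx
  · exact h1

private theorem Comb_kr_C {s : ι → V} {C : Finset ι} {x : ι} : Kr F k s C x ⊆ C := by
  classical
  exact Finset.filter_subset _ _

private theorem Comb_sub_erase {s : ι → V} {C E : Finset ι} {x : ι} (hx : x ∉ C)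
    (hE : E ⊆ insert x C) (hc : E.card = k) (hF : F (E.val.map s)) :
    Kr F k s C x ⊆ E.erase x := by
  intro a ha
  refine Finset.mem_erase.2 ⟨?_, kr_sub_edge hx hE hc hF ha⟩
  rintro rfl
  exact hx (Comb_kr_C ha)

theorem kr_card {s : ι → V} {C : Finset ι} {x : ι} (hx : x ∉ C) (hC : Cl F k s C)
    (hn : ¬ Cl F k s (insert x C)) : (Kr F k s C x).card + 1 ≤ k := by
  obtain ⟨E, hE, hc, hF⟩ := exists_edge hn
  have hxE := mem_edge hC hE hc hF
  have h1 := Finset.card_le_card (Comb_sub_erase hx hE hc hF)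
  have h2 := Finset.card_erase_add_one hxE
  omega

theorem De_nonneg {s : ι → V} {C : Finset ι} {x : ι} (hx : x ∉ C) (hC : Cl F k s C)
    (hn : ¬ Cl F k s (insert x C)) : 0 ≤ De F k C x s := by
  have h1 := kr_card hx hC hn
  have h2 : ((Kr F k s C x).card : ℝ) + 1 ≤ k := by exact_mod_cast h1
  unfold De
  linarith

/-- after an exchange the kernel of `y` contains almost all of the old one -/
theorem t_bound {s : ι → V} {C : Finset ι} {x y v : ι} (hx : x ∉ C) (hy : y ∉ C) (hxy : x ≠ y)
    (hC : Cl F k s C) (hv : v ∈ C) (hvy : v ∉ Kr F k s C y) :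
    ((Kr F k s C y \ Kr F k s (insert x (C.erase v)) y).card : ℝ) ≤
      De F k (insert x (C.erase v)) y s := by
  classical
  have hn : ¬ Cl F k s (insert y (C.erase v)) := by
    intro h
    apply hvy
    unfold Kr
    exact Finset.mem_filter.2 ⟨hv, h⟩
  obtain ⟨B, hB, hc, hF⟩ := exists_edge hn
  have hyB := mem_edge (Cl_mono hC (Finset.erase_subset v C)) hB hc hF
  have hB1 : B ⊆ insert y C := hB.trans (Finset.insert_subset_insert y (Finset.erase_subset v C))
  have hB2 : B ⊆ insert y (insert x (C.erase v)) :=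
    hB.trans (Finset.insert_subset_insert y (Finset.subset_insert x _))
  have hy' : y ∉ insert x (C.erase v) := by
    rw [Finset.mem_insert, not_or]
    exact ⟨fun h => hxy h.symm, fun h => hy (Finset.mem_of_mem_erase h)⟩
  have h1 := Comb_sub_erase hy hB1 hc hF
  have h2 := Comb_sub_erase hy' hB2 hc hF
  have h3 : (Kr F k s C y \ Kr F k s (insert x (C.erase v)) y) ∪
      Kr F k s (insert x (C.erase v)) y ⊆ B.erase y :=
    Finset.union_subset (Finset.sdiff_subset.trans h1) h2
  have h4 := Finset.card_le_card h3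
  rw [Finset.card_union_of_disjoint Finset.sdiff_disjoint] at h4
  have h5 := Finset.card_erase_add_one hyB
  have h6 : (Kr F k s C y \ Kr F k s (insert x (C.erase v)) y).card +
      (Kr F k s (insert x (C.erase v)) y).card + 1 ≤ k := by omega
  have h7 : ((Kr F k s C y \ Kr F k s (insert x (C.erase v)) y).card : ℝ) +
      ((Kr F k s (insert x (C.erase v)) y).card : ℝ) + 1 ≤ k := by exact_mod_cast h6
  unfold De
  linarith

open Classical in
theorem pair_count {s : ι → V} {C : Finset ι} {x : ι} (hx : x ∉ C) (hC : Cl F k s C)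
    (hn : ¬ Cl F k s (insert x C)) :
    (((C ×ˢ C).filter (fun p => p.1 ∉ Kr F k s C x ∧ p.2 ∉ Kr F k s C x ∧
      Cl F k s (insert x ((C.erase p.1).erase p.2)))).card : ℝ) ≤
        2 * De F k C x s * (C.card : ℝ) := by
  obtain ⟨E, hE, hc, hF⟩ := exists_edge hn
  have hxE := mem_edge hC hE hc hF
  have hK := Comb_sub_erase hx hE hc hF
  let R : Finset ι := (E.erase x) \ Kr F k s C x
  have hR : R.card + (Kr F k s C x).card + 1 = k := by
    have h1 : R.card + (Kr F k s C x).card = (E.erase x).card := Finset.card_sdiff_add_card_eq_card hK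
    have h2 := Finset.card_erase_add_one hxE
    omega
  have hsub : (C ×ˢ C).filter (fun p => p.1 ∉ Kr F k s C x ∧ p.2 ∉ Kr F k s C x ∧
      Cl F k s (insert x ((C.erase p.1).erase p.2))) ⊆ (R ×ˢ C) ∪ (C ×ˢ R) := by
    intro p hp
    rw [Finset.mem_filter, Finset.mem_product] at hp
    obtain ⟨⟨hp1, hp2⟩, h1, h2, h3⟩ := hp
    rw [Finset.mem_union, Finset.mem_product, Finset.mem_product]
    by_cases ha : p.1 ∈ E
    · refine Or.inl ⟨Finset.mem_sdiff.2 ⟨Finset.mem_erase.2 ⟨?_, ha⟩, h1⟩, hp2⟩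
      rintro h
      exact hx (h ▸ hp1)
    · by_cases hb : p.2 ∈ E
      · refine Or.inr ⟨hp1, Finset.mem_sdiff.2 ⟨Finset.mem_erase.2 ⟨?_, hb⟩, h2⟩⟩
        rintro h
        exact hx (h ▸ hp2)
      · exfalso
        refine h3 E (fun c hcE => ?_) hc hF
        rcases Finset.mem_insert.1 (hE hcE) with h4 | h4
        · rw [h4]
          exact Finset.mem_insert_self _ _
        · refine Finset.mem_insert_of_mem (Finset.mem_erase.2 ⟨?_, Finset.mem_erase.2 ⟨?_, h4⟩⟩)
          · rintro rfl
            exact hb hcE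
          · rintro rfl
            exact ha hcE
  have h1 := (Finset.card_le_card hsub).trans (Finset.card_union_le _ _)
  rw [Finset.card_product, Finset.card_product] at h1
  have h2 : (((C ×ˢ C).filter (fun p => p.1 ∉ Kr F k s C x ∧ p.2 ∉ Kr F k s C x ∧
      Cl F k s (insert x ((C.erase p.1).erase p.2)))).card : ℝ) ≤
      (R.card : ℝ) * C.card + C.card * R.card := by exact_mod_cast h1
  have h3 : (R.card : ℝ) = De F k C x s := by
    have h4 : (R.card : ℝ) + ((Kr F k s C x).card : ℝ) + 1 = k := by exact_mod_cast hR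
    unfold De
    linarith
  rw [h3] at h2
  linarith

end Pool.Agent.DCN
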