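import Pool.Agent.DCN.Comb

/-!
# DCN-Exch: the exchange is measure preserving (paper section 3)

Permutations of the coordinates preserve the expectation. With `σ = Equiv.swap v x` the pair
`(C, insert x (C.erase v))` is interchanged and `y` is fixed, which gives
`EE (cl C * Σ_{v ∈ Kr C x} De (insert x (C.erase v)) y) = EE (cl C * |Kr C x| * De C y)`; then
`|Kr C x| ≤ k - 1`, and `EE (cl C * De C y) = EE (cl C * De C x)` (swap `x` and `y`).
-/

set_option linter.unusedSectionVars false

namespace Pool.Agent.DCN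

open Finset

variable {V : Type} [Fintype V] [DecidableEq V] {ι : Type} [Fintype ι] [DecidableEq ι]

variable {F : Multiset V → Prop} {k : ℕ}

private theorem Exch_cl (σ : Equiv.Perm ι) (J : Finset ι) (s : ι → V) :
    Cl F k (fun i => s (σ i)) J ↔ Cl F k s (J.map σ.toEmbedding) := by
  have key : ∀ I : Finset ι,
      I.val.map (fun i => s (σ i)) = (I.map σ.toEmbedding).val.map s := by
    intro I
    rw [Finset.map_val, Multiset.map_map]
    rfl
  constructor
  · intro h I hI hc
    obtain ⟨I', hI', rfl⟩ := Finset.subset_map_iff.1 hI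
    rw [← key]
    exact h I' hI' (by rwa [card_map] at hc)
  · intro h I hI hc
    rw [key]
    exact h _ (map_subset_map.2 hI) (by rwa [card_map])

private theorem Exch_ind (σ : Equiv.Perm ι) (J : Finset ι) (s : ι → V) :
    cl F k J (fun i => s (σ i)) = cl F k (J.map σ.toEmbedding) s := by
  unfold cl
  by_cases h : Cl F k s (J.map σ.toEmbedding)
  · rw [if_pos h, if_pos ((Exch_cl σ J s).2 h)]
  · rw [if_neg h, if_neg (fun h' => h ((Exch_cl σ J s).1 h'))]

private theorem Exch_kr (σ : Equiv.Perm ι) (C : Finset ι) (x : ι) (s : ι → V) :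
    (Kr F k (fun i => s (σ i)) C x).map σ.toEmbedding =
      Kr F k s (C.map σ.toEmbedding) (σ x) := by
  have key : ∀ a : ι, (insert x (C.erase a)).map σ.toEmbedding =
      insert (σ x) ((C.map σ.toEmbedding).erase (σ a)) := by
    intro a
    rw [map_insert, map_erase]
    rfl
  ext b
  simp only [mem_map, Kr, mem_filter]
  constructor
  · rintro ⟨a, ⟨ha, hc⟩, rfl⟩
    refine ⟨⟨a, ha, rfl⟩, ?_⟩
    rw [Exch_cl, key] at hc
    exact hc
  · rintro ⟨⟨a, ha, rfl⟩, hc⟩
    refine ⟨a, ⟨ha, ?_⟩, rfl⟩
    rw [Exch_cl, key]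
    exact hc

theorem De_perm (σ : Equiv.Perm ι) (C : Finset ι) (x : ι) (s : ι → V) :
    De F k C x (fun i => s (σ i)) = De F k (C.map σ.toEmbedding) (σ x) s := by
  unfold De
  rw [← Exch_kr, card_map]

/-- permutations of the coordinates preserve the expectation -/
private theorem Exch_EE (σ : Equiv.Perm ι) (f : (ι → V) → ℝ) :
    EE (fun s => f (fun i => s (σ i))) = EE f := by
  unfold EE
  congr 1
  exact Fintype.sum_equiv (Equiv.arrowCongr σ.symm (Equiv.refl V)) _ _ fun s => rfl

private theorem Exch_out {C : Finset ι} {x y : ι} (hx : x ∉ C) (hy : y ∉ C) :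
    C.map (Equiv.swap x y).toEmbedding = C := by
  ext b
  rw [mem_map]
  constructor
  · rintro ⟨a, ha, rfl⟩
    change Equiv.swap x y a ∈ C
    rw [Equiv.swap_apply_of_ne_of_ne (by rintro rfl; exact hx ha) (by rintro rfl; exact hy ha)]
    exact ha
  · intro hb
    refine ⟨b, hb, ?_⟩
    exact Equiv.swap_apply_of_ne_of_ne (by rintro rfl; exact hx hb) (by rintro rfl; exact hy hb)

private theorem Exch_in {C : Finset ι} {v x : ι} (hv : v ∈ C) (hx : x ∉ C) :
    C.map (Equiv.swap v x).toEmbedding = insert x (C.erase v) := by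
  ext b
  rw [mem_map, mem_insert, mem_erase]
  constructor
  · rintro ⟨a, ha, rfl⟩
    change Equiv.swap v x a = x ∨ Equiv.swap v x a ≠ v ∧ Equiv.swap v x a ∈ C
    by_cases hav : a = v
    · left
      rw [hav, Equiv.swap_apply_left]
    · right
      rw [Equiv.swap_apply_of_ne_of_ne hav (by rintro rfl; exact hx ha)]
      exact ⟨hav, ha⟩
  · rintro (rfl | ⟨h1, h2⟩)
    · exact ⟨v, hv, Equiv.swap_apply_left _ _⟩
    · exact ⟨b, h2, Equiv.swap_apply_of_ne_of_ne h1 (by rintro rfl; exact hx h2)⟩

private theorem Exch_back {C : Finset ι} {v x : ι} (hv : v ∈ C) (hx : x ∉ C) :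
    (insert x (C.erase v)).map (Equiv.swap v x).toEmbedding = C := by
  rw [← Exch_in hv hx, map_map]
  have h : (Equiv.swap v x).toEmbedding.trans (Equiv.swap v x).toEmbedding =
      Function.Embedding.refl ι := by
    ext a
    change Equiv.swap v x (Equiv.swap v x a) = a
    rw [← Equiv.Perm.mul_apply, Equiv.swap_mul_self, Equiv.Perm.one_apply]
  rw [h, map_refl]

theorem EE_De_comm {C : Finset ι} {x y : ι} (hx : x ∉ C) (hy : y ∉ C) :
    EE (fun s : ι → V => cl F k C s * De F k C y s) = EE (fun s => cl F k C s * De F k C x s) := by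
  rw [← Exch_EE (Equiv.swap x y) (fun s => cl F k C s * De F k C x s)]
  congr 1
  funext s
  rw [Exch_ind, De_perm, Exch_out hx hy, Equiv.swap_apply_left]

private theorem Exch_mono {f g : (ι → V) → ℝ} (h : ∀ s, f s ≤ g s) : EE f ≤ EE g := by
  unfold EE
  exact div_le_div_of_nonneg_right (sum_le_sum fun s _ => h s) (by positivity)

private theorem Exch_mul (c : ℝ) (f : (ι → V) → ℝ) : EE (fun s => c * f s) = c * EE f := by
  unfold EE
  rw [← mul_sum, mul_div_assoc]

private theorem Exch_add (f g : (ι → V) → ℝ) : EE (fun s => f s + g s) = EE f + EE g := by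
  unfold EE
  rw [sum_add_distrib, add_div]

private theorem Exch_sum (A : Finset ι) (f : ι → (ι → V) → ℝ) :
    EE (fun s => ∑ v ∈ A, f v s) = ∑ v ∈ A, EE (f v) := by
  unfold EE
  rw [sum_comm, sum_div]

/-- the kernel has at most `k - 1` elements -/
private theorem Exch_card {m : ℕ} (hT : Tu F k m (V := V) ι) {C : Finset ι}
    (hm : C.card + 1 = m) {x : ι} (hx : x ∉ C) {s : ι → V} (hC : Cl F k s C) :
    ((Kr F k s C x).card : ℝ) ≤ (k : ℝ) - 1 := by
  have h := kr_card hx hC (hT s _ (by rw [card_insert_of_notMem hx, hm]))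
  have h1 : (((Kr F k s C x).card + 1 : ℕ) : ℝ) ≤ (k : ℝ) := Nat.cast_le.2 h
  push_cast at h1
  linarith

private theorem Exch_nonneg {m : ℕ} (hT : Tu F k m (V := V) ι) {C : Finset ι}
    (hm : C.card + 1 = m) {x : ι} (hx : x ∉ C) {s : ι → V} (hC : Cl F k s C) :
    0 ≤ De F k C x s :=
  De_nonneg hx hC (hT s _ (by rw [card_insert_of_notMem hx, hm]))

theorem exch {m : ℕ} (hk : 1 ≤ k) (hT : Tu F k m (V := V) ι) {C : Finset ι} (hm : C.card + 1 = m) {x y : ι}
    (hx : x ∉ C) (hy : y ∉ C) (hxy : x ≠ y) :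
    EE (fun s : ι → V => cl F k C s *
      ∑ v ∈ Kr F k s C x, De F k (insert x (C.erase v)) y s) ≤
        ((k : ℝ) - 1) * EE (fun s => cl F k C s * De F k C x s) := by
  have _ := hk
  -- the sum over the kernel as a sum over `C`
  have h1 : ∀ (s : ι → V) (g : ι → ℝ), ∑ v ∈ Kr F k s C x, g v =
      ∑ v ∈ C, cl F k (insert x (C.erase v)) s * g v := by
    intro s g
    unfold Kr
    rw [sum_filter]
    refine sum_congr rfl fun v _ => ?_
    unfold cl
    split_ifs with h
    · rw [one_mul]
    · rw [zero_mul]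
  have h2 : ∀ s : ι → V, ((Kr F k s C x).card : ℝ) =
      ∑ v ∈ C, cl F k (insert x (C.erase v)) s := by
    intro s
    have h := h1 s (fun _ => 1)
    rw [sum_const, nsmul_eq_mul, mul_one] at h
    rw [h]
    exact sum_congr rfl fun v _ => mul_one _
  have h3 : EE (fun s : ι → V => cl F k C s *
      ∑ v ∈ Kr F k s C x, De F k (insert x (C.erase v)) y s) =
      EE (fun s : ι → V => cl F k C s * (((Kr F k s C x).card : ℝ) * De F k C y s)) := by
    have e1 : (fun s : ι → V => cl F k C s *
        ∑ v ∈ Kr F k s C x, De F k (insert x (C.erase v)) y s) =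
        fun s => ∑ v ∈ C, cl F k C s *
          (cl F k (insert x (C.erase v)) s * De F k (insert x (C.erase v)) y s) := by
      funext s
      rw [h1, mul_sum]
    have e2 : (fun s : ι → V => cl F k C s * (((Kr F k s C x).card : ℝ) * De F k C y s)) =
        fun s => ∑ v ∈ C, cl F k (insert x (C.erase v)) s * (cl F k C s * De F k C y s) := by
      funext s
      rw [h2, ← sum_mul]
      ring
    rw [e1, e2, Exch_sum, Exch_sum]
    refine sum_congr rfl fun v hv => ?_
    rw [← Exch_EE (Equiv.swap v x) (fun s => cl F k C s *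
      (cl F k (insert x (C.erase v)) s * De F k (insert x (C.erase v)) y s))]
    congr 1
    funext s
    have hyv : y ≠ v := by
      rintro rfl
      exact hy hv
    rw [Exch_ind, Exch_ind, De_perm, Exch_in hv hx, Exch_back hv hx,
      Equiv.swap_apply_of_ne_of_ne hyv hxy.symm]
  rw [h3, ← EE_De_comm hx hy, ← Exch_mul]
  refine Exch_mono fun s => ?_
  unfold cl
  split_ifs with h
  · rw [one_mul, one_mul]
    exact mul_le_mul_of_nonneg_right (Exch_card hT hm hx h) (Exch_nonneg hT hm hy h)
  · rw [zero_mul, zero_mul, mul_zero]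

theorem EE_Io_De {m : ℕ} (hk : 1 ≤ k) (hT : Tu F k m (V := V) ι) {C : Finset ι} (hm : C.card + 1 = m)
    {x y : ι} (hx : x ∉ C) (hy : y ∉ C) (hxy : x ≠ y) :
    EE (fun s : ι → V => cl F k C s * (Io F k C x y s * (De F k C x s + De F k C y s))) ≤
        2 * ((k : ℝ) - 1) * EE (fun s => cl F k C s * De F k C x s) := by
  have _ := hk
  have _ := hxy
  have h1 : EE (fun s : ι → V =>
      cl F k C s * (Io F k C x y s * (De F k C x s + De F k C y s))) ≤
      EE (fun s : ι → V =>
        ((k : ℝ) - 1) * (cl F k C s * De F k C x s + cl F k C s * De F k C y s)) := by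
    refine Exch_mono fun s => ?_
    unfold cl
    split_ifs with h
    · rw [one_mul, one_mul, one_mul]
      refine mul_le_mul_of_nonneg_right ?_
        (add_nonneg (Exch_nonneg hT hm hx h) (Exch_nonneg hT hm hy h))
      refine le_trans ?_ (Exch_card hT hm hx h)
      exact Nat.cast_le.2 (card_le_card inter_subset_left)
    · rw [zero_mul, zero_mul, zero_mul, add_zero, mul_zero]
  refine h1.trans (le_of_eq ?_)
  rw [Exch_mul, Exch_add, EE_De_comm hx hy]
  ring

end Pool.Agent.DCN
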