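import Pool.Agent.DCN.Comb

/-!
# DCN-Key: the main count (paper section 3)

For `w ∈ K(x) ∩ K(y)` the set `C ∖ w ∪ {x, y}` has `m` elements and contains an edge `A w`, which contains `x` and
`y` and not `w`, so `|A w ∩ C| = k - 2`.  Hence many elements `v` of the symmetric difference of the kernels are not
in `A w`, and such a `v` kills `w` in the kernel after the exchange of `v` (`Key_fiber`); double counting.
-/

namespace Pool.Agent.DCN

open Finset

variable {V : Type} [Fintype V] [DecidableEq V] {ι : Type} [Fintype ι] [DecidableEq ι]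

variable {F : Multiset V → Prop} {k : ℕ}

private theorem Key_mem {s : ι → V} {C : Finset ι} {x a : ι} :
    a ∈ Kr F k s C x ↔ a ∈ C ∧ Cl F k s (insert x (C.erase a)) := by
  classical
  unfold Kr
  rw [mem_filter]

private theorem Key_edge {m : ℕ} {s : ι → V} {C : Finset ι} {x y w : ι}
    (hT : ∀ J : Finset ι, J.card = m → ¬ Cl F k s J) (hm : C.card + 1 = m)
    (hx : x ∉ C) (hy : y ∉ C) (hxy : x ≠ y)
    (hwx : w ∈ Kr F k s C x) (hwy : w ∈ Kr F k s C y) :
    ∃ A : Finset ι, A ⊆ insert x (insert y (C.erase w)) ∧ A.card = k ∧ F (A.val.map s) ∧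
      x ∈ A ∧ y ∈ A ∧ (A ∩ C).card + 2 = k := by
  have hw := (Key_mem.1 hwx).1
  have hcx := (Key_mem.1 hwx).2
  have hcy := (Key_mem.1 hwy).2
  have hye : y ∉ C.erase w := fun h => hy (mem_of_mem_erase h)
  have hxe : x ∉ insert y (C.erase w) := by
    rw [mem_insert]
    rintro (h | h)
    · exact hxy h
    · exact hx (mem_of_mem_erase h)
  have hcard : (insert x (insert y (C.erase w))).card = m := by
    rw [card_insert_of_notMem hxe, card_insert_of_notMem hye, card_erase_of_mem hw]
    have : 0 < C.card := card_pos.2 ⟨w, hw⟩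
    omega
  obtain ⟨A, hA, hAc, hAF⟩ := exists_edge (hT _ hcard)
  have hxA : x ∈ A := by
    by_contra hn
    refine hcy A (fun a ha => ?_) hAc hAF
    rcases mem_insert.1 (hA ha) with h | h
    · exact absurd (h ▸ ha) hn
    · exact h
  have hyA : y ∈ A := by
    by_contra hn
    refine hcx A (fun a ha => ?_) hAc hAF
    rcases mem_insert.1 (hA ha) with h | h
    · rw [h]; exact mem_insert_self _ _
    · rcases mem_insert.1 h with h | h
      · exact absurd (h ▸ ha) hn
      · exact mem_insert_of_mem h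
  refine ⟨A, hA, hAc, hAF, hxA, hyA, ?_⟩
  have hAeq : A = insert x (insert y (A ∩ C)) := by
    ext a
    simp only [mem_insert, mem_inter]
    constructor
    · intro ha
      rcases mem_insert.1 (hA ha) with h | h
      · exact Or.inl h
      · rcases mem_insert.1 h with h | h
        · exact Or.inr (Or.inl h)
        · exact Or.inr (Or.inr ⟨ha, mem_of_mem_erase h⟩)
    · rintro (h | h | h)
      · rw [h]; exact hxA
      · rw [h]; exact hyA
      · exact h.1
  have h1 : y ∉ A ∩ C := fun h => hy (mem_inter.1 h).2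
  have h2 : x ∉ insert y (A ∩ C) := by
    rw [mem_insert]
    rintro (h | h)
    · exact hxy h
    · exact hx (mem_inter.1 h).2
  have h3 : A.card = (A ∩ C).card + 2 := by
    conv_lhs => rw [hAeq]
    rw [card_insert_of_notMem h2, card_insert_of_notMem h1]
  omega

/-- for a fixed `v ∈ K(x) ∖ K(y)` few `w` have `v ∉ A w` -/
private theorem Key_fiber {s : ι → V} {C : Finset ι} {x y v : ι}
    (hx : x ∉ C) (hy : y ∉ C) (hxy : x ≠ y) (hC : Cl F k s C) (A : ι → Finset ι) (I : Finset ι)
    (hI : ∀ w ∈ I, w ∈ Kr F k s C y ∧ A w ⊆ insert x (insert y (C.erase w)) ∧ (A w).card = k ∧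
      F ((A w).val.map s))
    (hv : v ∈ C) (hvy : v ∉ Kr F k s C y) :
    ((I.filter (fun w => v ∉ A w)).card : ℝ) ≤ De F k (insert x (C.erase v)) y s := by
  refine le_trans ?_ (t_bound hx hy hxy hC hv hvy)
  refine Nat.cast_le.2 (card_le_card fun w hw => ?_)
  rw [mem_filter] at hw
  obtain ⟨hwy, hA, hAc, hAF⟩ := hI w hw.1
  rw [mem_sdiff]
  refine ⟨hwy, fun hk => ?_⟩
  have hwC := (Key_mem.1 hwy).1
  refine (Key_mem.1 hk).2 (A w) (fun a ha => ?_) hAc hAF
  rcases mem_insert.1 (hA ha) with h | h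
  · rw [h]
    refine mem_insert_of_mem (mem_erase.2 ⟨?_, mem_insert_self _ _⟩)
    rintro rfl
    exact hx hwC
  · rcases mem_insert.1 h with h | h
    · rw [h]; exact mem_insert_self _ _
    · refine mem_insert_of_mem (mem_erase.2 ⟨(mem_erase.1 h).1, mem_insert_of_mem ?_⟩)
      refine mem_erase.2 ⟨?_, (mem_erase.1 h).2⟩
      rintro rfl
      exact hw.2 ha

private theorem Key_nonneg {m : ℕ} {s : ι → V} {C : Finset ι} {x y v : ι}
    (hT : ∀ J : Finset ι, J.card = m → ¬ Cl F k s J) (hm : C.card + 1 = m)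
    (hx : x ∉ C) (hy : y ∉ C) (hxy : x ≠ y) (hv : v ∈ Kr F k s C x) :
    0 ≤ De F k (insert x (C.erase v)) y s := by
  have hvC := (Key_mem.1 hv).1
  have hyn : y ∉ insert x (C.erase v) := by
    rw [mem_insert]
    rintro (h | h)
    · exact hxy h.symm
    · exact hy (mem_of_mem_erase h)
  have hxn : x ∉ C.erase v := fun h => hx (mem_of_mem_erase h)
  refine De_nonneg hyn (Key_mem.1 hv).2 (hT _ ?_)
  rw [card_insert_of_notMem hyn, card_insert_of_notMem hxn, card_erase_of_mem hvC]
  have : 0 < C.card := card_pos.2 ⟨v, hvC⟩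
  omega

/-- the half of the double count that belongs to `K(x) ∖ K(y)` -/
private theorem Key_half {m : ℕ} {s : ι → V} {C : Finset ι} {x y : ι}
    (hT : ∀ J : Finset ι, J.card = m → ¬ Cl F k s J) (hm : C.card + 1 = m)
    (hx : x ∉ C) (hy : y ∉ C) (hxy : x ≠ y) (hC : Cl F k s C) (A : ι → Finset ι) (I : Finset ι)
    (hI : ∀ w ∈ I, w ∈ Kr F k s C y ∧ A w ⊆ insert x (insert y (C.erase w)) ∧ (A w).card = k ∧
      F ((A w).val.map s)) :
    (∑ w ∈ I, (((Kr F k s C x \ Kr F k s C y).filter (fun v => v ∉ A w)).card : ℝ)) ≤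
      ∑ v ∈ Kr F k s C x, De F k (insert x (C.erase v)) y s := by
  have h1 : (∑ w ∈ I, (((Kr F k s C x \ Kr F k s C y).filter (fun v => v ∉ A w)).card : ℝ)) =
      ∑ v ∈ Kr F k s C x \ Kr F k s C y, ((I.filter (fun w => v ∉ A w)).card : ℝ) := by
    have h2 : ∀ w ∈ I, (((Kr F k s C x \ Kr F k s C y).filter (fun v => v ∉ A w)).card : ℝ) =
        ∑ v ∈ Kr F k s C x \ Kr F k s C y, if v ∉ A w then (1 : ℝ) else 0 := by
      intro w _
      rw [← sum_filter, sum_const, nsmul_eq_mul, mul_one]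
    have h3 : ∀ v ∈ Kr F k s C x \ Kr F k s C y, ((I.filter (fun w => v ∉ A w)).card : ℝ) =
        ∑ w ∈ I, if v ∉ A w then (1 : ℝ) else 0 := by
      intro v _
      rw [← sum_filter, sum_const, nsmul_eq_mul, mul_one]
    rw [sum_congr rfl h2, sum_congr rfl h3, sum_comm]
  rw [h1]
  refine le_trans (sum_le_sum fun v hv => ?_) (sum_le_sum_of_subset_of_nonneg sdiff_subset ?_)
  · rw [mem_sdiff] at hv
    exact Key_fiber hx hy hxy hC A I hI (Key_mem.1 hv.1).1 hv.2
  · intro v hv _
    exact Key_nonneg hT hm hx hy hxy hv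

theorem key_count {m : ℕ} {s : ι → V} {C : Finset ι} {x y : ι}
    (hT : ∀ J : Finset ι, J.card = m → ¬ Cl F k s J) (hm : C.card + 1 = m)
    (hx : x ∉ C) (hy : y ∉ C) (hxy : x ≠ y) (hC : Cl F k s C) :
    Io F k C x y s * ((k : ℝ) - 2 * Io F k C x y s) ≤
      Io F k C x y s * (De F k C x s + De F k C y s) +
      (∑ v ∈ Kr F k s C x, De F k (insert x (C.erase v)) y s) +
      ∑ v ∈ Kr F k s C y, De F k (insert y (C.erase v)) x s := by
  classical
  have hex : ∀ w : ι, ∃ A : Finset ι, w ∈ Kr F k s C x ∩ Kr F k s C y →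
      A ⊆ insert x (insert y (C.erase w)) ∧ A.card = k ∧ F (A.val.map s) ∧
      x ∈ A ∧ y ∈ A ∧ (A ∩ C).card + 2 = k := by
    intro w
    by_cases hw : w ∈ Kr F k s C x ∩ Kr F k s C y
    · obtain ⟨A, hA⟩ := Key_edge hT hm hx hy hxy (mem_inter.1 hw).1 (mem_inter.1 hw).2
      exact ⟨A, fun _ => hA⟩
    · exact ⟨∅, fun h => absurd h hw⟩
  choose A hA using hex
  have hX := Key_half hT hm hx hy hxy hC A (Kr F k s C x ∩ Kr F k s C y)
    (fun w hw => ⟨(mem_inter.1 hw).2, (hA w hw).1, (hA w hw).2.1, (hA w hw).2.2.1⟩)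
  have hY := Key_half hT hm hy hx hxy.symm hC A (Kr F k s C x ∩ Kr F k s C y)
    (fun w hw => ⟨(mem_inter.1 hw).1, by rw [insert_comm]; exact (hA w hw).1, (hA w hw).2.1,
      (hA w hw).2.2.1⟩)
  have hpt : ∀ w ∈ Kr F k s C x ∩ Kr F k s C y,
      (k : ℝ) - De F k C x s - De F k C y s - 2 * Io F k C x y s ≤
        (((Kr F k s C x \ Kr F k s C y).filter (fun v => v ∉ A w)).card : ℝ) +
        (((Kr F k s C y \ Kr F k s C x).filter (fun v => v ∉ A w)).card : ℝ) := by
    intro w hw
    obtain ⟨-, -, -, -, -, hc⟩ := hA w hw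
    have e1 : ((Kr F k s C x \ Kr F k s C y).filter (fun v => v ∈ A w)).card +
        ((Kr F k s C x \ Kr F k s C y).filter (fun v => v ∉ A w)).card =
        (Kr F k s C x \ Kr F k s C y).card := card_filter_add_card_filter_not _
    have e2 : ((Kr F k s C y \ Kr F k s C x).filter (fun v => v ∈ A w)).card +
        ((Kr F k s C y \ Kr F k s C x).filter (fun v => v ∉ A w)).card =
        (Kr F k s C y \ Kr F k s C x).card := card_filter_add_card_filter_not _
    have e3 : (Kr F k s C x \ Kr F k s C y).card + (Kr F k s C x ∩ Kr F k s C y).card =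
        (Kr F k s C x).card := card_sdiff_add_card_inter _ _
    have e4 : (Kr F k s C y \ Kr F k s C x).card + (Kr F k s C x ∩ Kr F k s C y).card =
        (Kr F k s C y).card := by
      rw [inter_comm]; exact card_sdiff_add_card_inter _ _
    have e5 : ((Kr F k s C x \ Kr F k s C y).filter (fun v => v ∈ A w)).card +
        ((Kr F k s C y \ Kr F k s C x).filter (fun v => v ∈ A w)).card ≤ (A w ∩ C).card := by
      rw [← card_union_of_disjoint]
      · refine card_le_card fun v hv => ?_
        rw [mem_union, mem_filter, mem_filter, mem_sdiff, mem_sdiff] at hv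
        rw [mem_inter]
        rcases hv with hv | hv
        · exact ⟨hv.2, (Key_mem.1 hv.1.1).1⟩
        · exact ⟨hv.2, (Key_mem.1 hv.1.1).1⟩
      · rw [disjoint_left]
        intro v hv hv'
        rw [mem_filter, mem_sdiff] at hv hv'
        exact hv.1.2 hv'.1.1
    unfold De Io
    have e1' := congrArg (Nat.cast (R := ℝ)) e1
    have e2' := congrArg (Nat.cast (R := ℝ)) e2
    have e3' := congrArg (Nat.cast (R := ℝ)) e3
    have e4' := congrArg (Nat.cast (R := ℝ)) e4
    have e5' := (Nat.cast_le (α := ℝ)).2 e5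
    have e6' := congrArg (Nat.cast (R := ℝ)) hc
    push_cast at e1' e2' e3' e4' e5' e6'
    linarith
  have hsum := sum_le_sum hpt
  rw [sum_const, nsmul_eq_mul, sum_add_distrib] at hsum
  have hI : ((Kr F k s C x ∩ Kr F k s C y).card : ℝ) = Io F k C x y s := rfl
  rw [hI] at hsum
  have hfin := hsum.trans (add_le_add hX hY)
  nlinarith [hfin]

end Pool.Agent.DCN
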