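import Pool.Agent.DCN.Mom
import Pool.Agent.DCN.Key
import Pool.Agent.DCN.Exch
import Pool.Agent.DCN.Chain

/-!
# DCN-Core: the second moment and the expectation of the main count (paper section 4)

`mom2_le`: `mom2` with `ka_sq`, `sq_nu`, `sq_de`, `sum_he` and `sum_ka`, summed over the pairs; with `κ = 2 r1 - r2`:
`Σ E cl ka² = Σ E cl (ka - κ)² + 2 κ S - M (M - 1) κ² p`, `S = Σ E cl ka ≤ (k-1)(k-2) p`.  `key_EE`: the
expectation of `key_count`, with `EE_Io_De` and `exch`.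
-/

namespace Pool.Agent.DCN

open Finset

variable {V : Type} [Fintype V] [DecidableEq V] {ι : Type} [Fintype ι] [DecidableEq ι]

variable {F : Multiset V → Prop} {k : ℕ}

private theorem Core_left (C : Finset ι) {g : ι → ℝ} (hg : ∀ a, 0 ≤ g a) :
    (∑ a ∈ C, ∑ _b ∈ C.erase a, g a) ≤ (C.card : ℝ) * ∑ a ∈ C, g a := by
  rw [Finset.mul_sum]
  refine Finset.sum_le_sum fun a _ => ?_
  rw [Finset.sum_const, nsmul_eq_mul]
  refine mul_le_mul_of_nonneg_right ?_ (hg a)
  exact_mod_cast Finset.card_erase_le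

private theorem Core_right (C : Finset ι) {g : ι → ℝ} (hg : ∀ a, 0 ≤ g a) :
    (∑ a ∈ C, ∑ b ∈ C.erase a, g b) ≤ (C.card : ℝ) * ∑ a ∈ C, g a := by
  have h1 : (∑ a ∈ C, ∑ b ∈ C.erase a, g b) ≤ ∑ _a ∈ C, ∑ b ∈ C, g b :=
    Finset.sum_le_sum fun a _ => Finset.sum_le_sum_of_subset_of_nonneg (Finset.erase_subset a C)
      fun b _ _ => hg b
  rwa [Finset.sum_const, nsmul_eq_mul] at h1

private theorem Core_EE5' (c d e g : ℝ) (f1 f2 f3 f4 f5 f6 : (ι → V) → ℝ) :
    EE (fun s => c * f1 s + c * f2 s + c * f3 s + c * f4 s + (d * e * f5 s + g * f6 s)) =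
      c * EE f1 + c * EE f2 + c * EE f3 + c * EE f4 + (d * e * EE f5 + g * EE f6) := by
  rw [EE_add (fun s => c * f1 s + c * f2 s + c * f3 s + c * f4 s) (fun s => d * e * f5 s + g * f6 s),
    EE_add (fun s => c * f1 s + c * f2 s + c * f3 s) (fun s => c * f4 s),
    EE_add (fun s => c * f1 s + c * f2 s) (fun s => c * f3 s),
    EE_add (fun s => c * f1 s) (fun s => c * f2 s), EE_add (fun s => d * e * f5 s) (fun s => g * f6 s),
    EE_mul_left, EE_mul_left, EE_mul_left, EE_mul_left, EE_mul_left, EE_mul_left]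

private theorem Core_num {q M K S p : ℝ} (hq : 1 ≤ q) (hqM : q ≤ M) (hM : 2 ≤ M) (hp : 0 ≤ p) (hS0 : 0 ≤ S)
    (hS : S ≤ q * (q - 1) * p) : 2 * K * S - K ^ 2 * (M * (M - 1)) * p ≤ q ^ 4 / M ^ 2 * p := by
  have hM0 : (0 : ℝ) < M := by linarith
  have hr : 0 ≤ q ^ 4 / M ^ 2 := by positivity
  rcases le_total K 0 with hK | hK
  · have h1 : 2 * K * S ≤ 0 := by nlinarith
    have h2 : 0 ≤ K ^ 2 * (M * (M - 1)) * p :=
      mul_nonneg (mul_nonneg (sq_nonneg K) (mul_nonneg hM0.le (by linarith))) hp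
    have h3 := mul_nonneg hr hp
    linarith
  · have h1 : 2 * K * S ≤ 2 * K * (q * (q - 1) * p) := mul_le_mul_of_nonneg_left hS (by linarith)
    have h2 : M * (q - 1) ^ 2 ≤ (M - 1) * q ^ 2 := by nlinarith
    have hA : 0 < M ^ 3 * (M - 1) := mul_pos (pow_pos hM0 3) (by linarith)
    have h3 : 0 ≤ (M ^ 3 * (M - 1)) * (M ^ 3 * (M - 1) * K ^ 2 - 2 * (M ^ 2 * q * (q - 1)) * K + q ^ 4) := by
      have h4 : 0 ≤ M ^ 3 * q ^ 2 * ((M - 1) * q ^ 2 - M * (q - 1) ^ 2) :=
        mul_nonneg (by positivity) (sub_nonneg.2 h2)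
      have h5 := sq_nonneg (M ^ 3 * (M - 1) * K - M ^ 2 * q * (q - 1))
      nlinarith
    have h6 : 0 ≤ M ^ 3 * (M - 1) * K ^ 2 - 2 * (M ^ 2 * q * (q - 1)) * K + q ^ 4 :=
      nonneg_of_mul_nonneg_right h3 hA
    have h7 : 2 * K * (q * (q - 1)) - K ^ 2 * (M * (M - 1)) ≤ q ^ 4 / M ^ 2 := by
      rw [le_div_iff₀ (by positivity)]
      nlinarith
    have h8 := mul_le_mul_of_nonneg_right h7 hp
    nlinarith

/-- the bound for the second moment -/
theorem mom2_le [Nonempty V] {m : ℕ} (hk : 2 ≤ k) (hT : Tu F k m (V := V) ι) {C : Finset ι} (hm : C.card + 1 = m)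
    (hC : 2 ≤ C.card) (hkm : k ≤ m) {x y : ι} (hx : x ∉ C) (hy : y ∉ C) (hxy : x ≠ y) :
    EE (fun s : ι → V => cl F k C s * Io F k C x y s ^ 2) ≤
      EE (fun s : ι → V => cl F k C s * Io F k C x y s) +
      ((k : ℝ) - 1) ^ 4 / (C.card : ℝ) ^ 2 * pn (V := V) F k ι C.card +
      4 * (2 * (C.card : ℝ) * (∑ a ∈ C, Va F k (C.erase a) x) +
        (∑ a ∈ C, ∑ b ∈ C.erase a, Va F k ((C.erase a).erase b) x) +
        2 * (C.card : ℝ) * EE (fun s : ι → V => cl F k C s * De F k C x s)) := by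
  classical
  have hp0 : 0 ≤ pn (V := V) F k ι C.card := pn_nonneg _
  obtain ⟨r1, hr1⟩ : ∃ r1 : ℝ, r1 = pn (V := V) F k ι C.card / pn (V := V) F k ι (C.card - 1) := ⟨_, rfl⟩
  obtain ⟨r2, hr2⟩ : ∃ r2 : ℝ, r2 = pn (V := V) F k ι (C.card - 1) / pn (V := V) F k ι (C.card - 2) :=
    ⟨_, rfl⟩
  have hterm : ∀ a ∈ C, ∀ b ∈ C.erase a,
      EE (fun s : ι → V => cl F k C s * ka F k C x a b s ^ 2) ≤
        (4 * Va F k (C.erase a) x) + (4 * Va F k (C.erase b) x) + (4 * Va F k ((C.erase a).erase b) x) +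
        4 * EE (fun s : ι → V => cl F k C s * he F k C x a b s) +
        (2 * (2 * r1 - r2) * EE (fun s : ι → V => cl F k C s * ka F k C x a b s) +
          (-(2 * r1 - r2) ^ 2) * pn (V := V) F k ι C.card) := by
    intro a ha b hb
    have h2 : EE (fun s : ι → V => cl F k C s * ka F k C x a b s ^ 2) ≤
        EE (fun s : ι → V => 4 * (cl F k C s * (nu F k C x a s - r1) ^ 2) +
          4 * (cl F k C s * (nu F k C x b s - r1) ^ 2) +
          4 * (cl F k C s * (de F k C x a b s - r2) ^ 2) +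
          4 * (cl F k C s * he F k C x a b s) +
          (2 * (2 * r1 - r2) * (cl F k C s * ka F k C x a b s) + (-(2 * r1 - r2) ^ 2) * cl F k C s)) := by
      refine EE_mono fun s => ?_
      have h3 := mul_le_mul_of_nonneg_left
        (ka_sq (F := F) (k := k) (C := C) (x := x) (a := a) (b := b) s r1 r2)
        (cl_nonneg (F := F) (k := k) C s)
      have h4 : cl F k C s * ka F k C x a b s ^ 2 =
          cl F k C s * (ka F k C x a b s - (2 * r1 - r2)) ^ 2 +
          (2 * (2 * r1 - r2) * (cl F k C s * ka F k C x a b s) + (-(2 * r1 - r2) ^ 2) * cl F k C s) := by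
        ring
      rw [h4]
      refine add_le_add (h3.trans (le_of_eq ?_)) le_rfl
      ring
    rw [Core_EE5', EE_cl] at h2
    have h4 := sq_nu (V := V) (F := F) (k := k) (C := C) (x := x) ha
    have h5 := sq_nu (V := V) (F := F) (k := k) (C := C) (x := x) (Finset.mem_of_mem_erase hb)
    have h6 := sq_de (V := V) (F := F) (k := k) (C := C) (x := x) ha hb
    rw [← hr1] at h4 h5
    rw [← hr2] at h6
    linarith
  have hsum : (∑ a ∈ C, ∑ b ∈ C.erase a, EE (fun s : ι → V => cl F k C s * ka F k C x a b s ^ 2)) ≤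
      4 * (∑ a ∈ C, ∑ _b ∈ C.erase a, Va F k (C.erase a) x) +
      4 * (∑ a ∈ C, ∑ b ∈ C.erase a, Va F k (C.erase b) x) +
      4 * (∑ a ∈ C, ∑ b ∈ C.erase a, Va F k ((C.erase a).erase b) x) +
      4 * (∑ a ∈ C, ∑ b ∈ C.erase a, EE (fun s : ι → V => cl F k C s * he F k C x a b s)) +
      (2 * (2 * r1 - r2) * (∑ a ∈ C, ∑ b ∈ C.erase a, EE (fun s : ι → V => cl F k C s * ka F k C x a b s)) +
        ∑ a ∈ C, ∑ _b ∈ C.erase a, (-(2 * r1 - r2) ^ 2) * pn (V := V) F k ι C.card) := by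
    refine (Finset.sum_le_sum fun a ha => Finset.sum_le_sum fun b hb => hterm a ha b hb).trans
      (le_of_eq ?_)
    simp only [Finset.sum_add_distrib, Finset.mul_sum]
  have hB := Core_left C (g := fun a => Va F k (C.erase a) x) (fun a => Va_nonneg _ _)
  have hD := Core_right C (g := fun a => Va F k (C.erase a) x) (fun a => Va_nonneg _ _)
  have hE := sum_he hT hm hx
  have hS := sum_ka hT hm hx hk
  have hS0 : 0 ≤ ∑ a ∈ C, ∑ b ∈ C.erase a, EE (fun s : ι → V => cl F k C s * ka F k C x a b s) :=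
    Finset.sum_nonneg fun a _ => Finset.sum_nonneg fun b _ => EE_nonneg fun s =>
      mul_nonneg (cl_nonneg _ _) (ka_nonneg _)
  have hc : (∑ a ∈ C, ∑ _b ∈ C.erase a, (-(2 * r1 - r2) ^ 2) * pn (V := V) F k ι C.card) =
      -((2 * r1 - r2) ^ 2 * ((C.card : ℝ) * ((C.card : ℝ) - 1)) * pn (V := V) F k ι C.card) := by
    have h1 : ∀ a ∈ C, (∑ _b ∈ C.erase a, (-(2 * r1 - r2) ^ 2) * pn (V := V) F k ι C.card) =
        ((C.card : ℝ) - 1) * ((-(2 * r1 - r2) ^ 2) * pn (V := V) F k ι C.card) := by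
      intro a ha
      rw [Finset.sum_const, nsmul_eq_mul, Finset.card_erase_of_mem ha, Nat.cast_sub (by omega)]
      push_cast
      ring
    rw [Finset.sum_congr rfl h1, Finset.sum_const, nsmul_eq_mul]
    ring
  have hkR : (2 : ℝ) ≤ (k : ℝ) := by exact_mod_cast hk
  have hCR : (2 : ℝ) ≤ (C.card : ℝ) := by exact_mod_cast hC
  have hkC : (k : ℝ) - 1 ≤ (C.card : ℝ) := by
    have h1 : (k : ℝ) ≤ ((C.card + 1 : ℕ) : ℝ) := by exact_mod_cast (by omega : k ≤ C.card + 1)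
    push_cast at h1
    linarith
  have hS' : (∑ a ∈ C, ∑ b ∈ C.erase a, EE (fun s : ι → V => cl F k C s * ka F k C x a b s)) ≤
      ((k : ℝ) - 1) * ((k : ℝ) - 1 - 1) * pn (V := V) F k ι C.card := by
    refine hS.trans (le_of_eq ?_)
    ring
  have hN := Core_num (K := 2 * r1 - r2) (by linarith : (1 : ℝ) ≤ (k : ℝ) - 1) hkC hCR hp0 hS0 hS'
  rw [mom2 hx hy hxy]
  rw [hc] at hsum
  linarith

private theorem Core_EE3 (f1 f2 f3 : (ι → V) → ℝ) :
    EE (fun s => f1 s + f2 s + f3 s) = EE f1 + EE f2 + EE f3 := by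
  rw [EE_add (fun s => f1 s + f2 s) f3, EE_add f1 f2]

/-- the expectation of the main count -/
theorem key_EE {m : ℕ} (hk : 1 ≤ k) (hT : Tu F k m (V := V) ι) {C : Finset ι} (hm : C.card + 1 = m)
    {x y : ι} (hx : x ∉ C) (hy : y ∉ C) (hxy : x ≠ y) :
    (k : ℝ) * EE (fun s : ι → V => cl F k C s * Io F k C x y s) -
      2 * EE (fun s : ι → V => cl F k C s * Io F k C x y s ^ 2) ≤
      4 * ((k : ℝ) - 1) * EE (fun s : ι → V => cl F k C s * De F k C x s) := by
  classical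
  have h1 : EE (fun s : ι → V => (k : ℝ) * (cl F k C s * Io F k C x y s) -
      2 * (cl F k C s * Io F k C x y s ^ 2)) ≤
      EE (fun s : ι → V => cl F k C s * (Io F k C x y s * (De F k C x s + De F k C y s)) +
        cl F k C s * (∑ v ∈ Kr F k s C x, De F k (insert x (C.erase v)) y s) +
        cl F k C s * (∑ v ∈ Kr F k s C y, De F k (insert y (C.erase v)) x s)) := by
    refine EE_mono fun s => ?_
    by_cases hC : Cl F k s C
    · have h2 := key_count (hT s) hm hx hy hxy hC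
      rw [cl_of hC]
      linarith
    · rw [cl_of_not hC]
      simp
  rw [Core_EE3, EE_sub (fun s : ι → V => (k : ℝ) * (cl F k C s * Io F k C x y s))
    (fun s : ι → V => 2 * (cl F k C s * Io F k C x y s ^ 2)), EE_mul_left, EE_mul_left] at h1
  have h3 := EE_Io_De hk hT hm hx hy hxy
  have h4 := exch hk hT hm hx hy hxy
  have h5 := exch hk hT hm hy hx hxy.symm
  rw [EE_De_comm hx hy] at h5
  linarith

end Pool.Agent.DCN
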