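import Mathlib

/-!
# DCN: de Caen's bound is off by a constant factor for `m ≥ (2 + η) k` (MP_a4d830_co), helper9

Paper: team store `dcn_paper.md`.

All probabilities are on the space `ι → V` with the uniform measure.  An edge is a multiset `M` of `k`
elements of `V` with `F M`.
-/

namespace Pool.Agent.DCN

open Finset

variable {V : Type} [Fintype V] [DecidableEq V] {ι : Type} [Fintype ι] [DecidableEq ι]

/-- the tuple `s` restricted to `J` contains no edge -/
def Cl (F : Multiset V → Prop) (k : ℕ) (s : ι → V) (J : Finset ι) : Prop :=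
  ∀ I ⊆ J, I.card = k → ¬ F (I.val.map s)

open Classical in
/-- indicator of `Cl` -/
noncomputable def cl (F : Multiset V → Prop) (k : ℕ) (J : Finset ι) (s : ι → V) : ℝ :=
  if Cl F k s J then 1 else 0

/-- expectation -/
noncomputable def EE (f : (ι → V) → ℝ) : ℝ :=
  (∑ s : ι → V, f s) / (Fintype.card V : ℝ) ^ (Fintype.card ι)

/-- average over the coordinate `a` -/
noncomputable def avg (a : ι) (f : (ι → V) → ℝ) : (ι → V) → ℝ :=
  fun s => (∑ z : V, f (Function.update s a z)) / (Fintype.card V : ℝ)

/-- `f` does not depend on the coordinate `a` -/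
def Ind (a : ι) (f : (ι → V) → ℝ) : Prop :=
  ∀ (s : ι → V) (z : V), f (Function.update s a z) = f s

open Classical in
/-- the kernel: the `a ∈ C` such that `C ∖ a ∪ x` contains no edge -/
noncomputable def Kr (F : Multiset V → Prop) (k : ℕ) (s : ι → V) (C : Finset ι) (x : ι) : Finset ι :=
  C.filter (fun a => Cl F k s (insert x (C.erase a)))

/-- the defect `k - 1 - |K(x)|` -/
noncomputable def De (F : Multiset V → Prop) (k : ℕ) (C : Finset ι) (x : ι) (s : ι → V) : ℝ :=
  (k : ℝ) - 1 - ((Kr F k s C x).card : ℝ)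

/-- `|K(x) ∩ K(y)|` -/
noncomputable def Io (F : Multiset V → Prop) (k : ℕ) (C : Finset ι) (x y : ι) (s : ι → V) : ℝ :=
  ((Kr F k s C x ∩ Kr F k s C y).card : ℝ)

/-- every `m`-tuple contains an edge -/
def Tu (F : Multiset V → Prop) (k m : ℕ) (ι : Type) [Fintype ι] [DecidableEq ι] : Prop :=
  ∀ (s : ι → V) (J : Finset ι), J.card = m → ¬ Cl F k s J

/-- the probability that a random `j`-tuple contains no edge -/
noncomputable def pn (F : Multiset V → Prop) (k : ℕ) (ι : Type) [Fintype ι] [DecidableEq ι]
    (j : ℕ) : ℝ :=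
  open Classical in
  if h : ∃ J : Finset ι, J.card = j then EE (cl F k h.choose) else 0

end Pool.Agent.DCN
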