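import Pool.Agent.DCN.ClB
import Pool.Agent.Helper1.TuranLimit

/-!
# DCN-Dens: from hypergraphs to the product space and to the Turan density

`ed G M`: `M` is not the multiset of a set of `G`.  `ed_tu`: every `m`-tuple contains an edge.  `pn_ed`: the probability that a
random `k`-tuple is a member of `G`.  `dens_of`: from the bounds for all `n` to the Turan density.
-/

namespace Pool.Agent.DCN

open Finset Pool.Agent.Helper1.Turan

/-- the edges of the product space: everything except the members of `G` -/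
def ed {n : ℕ} (G : Finset (Finset (Fin n))) (M : Multiset (Fin n)) : Prop :=
  ¬ (M.Nodup ∧ M.toFinset ∈ G)

theorem ed_tu {k m n : ℕ} (hk : 2 ≤ k) (hkm : k ≤ m) {G : Finset (Finset (Fin n))} (h1 : IsKGraph k n G)
    (h2 : CompleteFree k m n G) (ι : Type) [Fintype ι] [DecidableEq ι] : Tu (ed G) k m ι := by
  classical
  intro s J hJ hCl
  have _ := h1
  have h3 : ∀ I ⊆ J, I.card = k → (I.val.map s).Nodup ∧ I.image s ∈ G := fun I hI hc =>
    not_not.1 (hCl I hI hc)
  have hinj : Set.InjOn s J := by
    intro i hi j hj hij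
    by_contra hne
    have hsub : ({i, j} : Finset ι) ⊆ J := by
      intro x hx
      rcases mem_insert.1 hx with rfl | hx
      · exact hi
      · rw [mem_singleton.1 hx]
        exact hj
    obtain ⟨I, hI1, hI2, hI3⟩ := exists_subsuperset_card_eq hsub
      (n := k) (by rw [card_pair hne]; exact hk) (by rw [hJ]; exact hkm)
    have h4 := (h3 I hI2 hI3).1
    exact hne (Multiset.inj_on_of_nodup_map h4 i (hI1 (mem_insert_self _ _)) j
      (hI1 (mem_insert_of_mem (mem_singleton_self _))) hij)
  obtain ⟨e, he, hec, heG⟩ := h2 (J.image s) (by rw [card_image_of_injOn hinj, hJ])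
  have hI : (J.filter fun i => s i ∈ e).image s = e := by
    ext w
    rw [mem_image]
    constructor
    · rintro ⟨i, hi, rfl⟩
      exact (mem_filter.1 hi).2
    · intro hw
      obtain ⟨i, hi, rfl⟩ := mem_image.1 (he hw)
      exact ⟨i, mem_filter.2 ⟨hi, hw⟩, rfl⟩
  have hIc : (J.filter fun i => s i ∈ e).card = k := by
    rw [← hec, ← card_image_of_injOn (s := J.filter fun i => s i ∈ e) (f := s), hI]
    exact hinj.mono fun i hi => (mem_filter.1 hi).1
  have h4 := (h3 _ (filter_subset _ _) hIc).2
  rw [hI] at h4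
  exact heG h4

/-- the number of injective maps with a given image -/
private theorem dens_card {n : ℕ} (α : Type) [Fintype α] [DecidableEq α] (e : Finset (Fin n))
    (he : e.card = Fintype.card α) :
    (univ.filter fun a : α → Fin n => Function.Injective a ∧ univ.image a = e).card =
      (Fintype.card α).factorial := by
  classical
  have h0 : Fintype.card α = Fintype.card e := by
    rw [Fintype.card_coe, he]
  have e0 : α ≃ e := Fintype.equivOfCardEq h0
  rw [← Fintype.card_equiv e0, ← Fintype.card_subtype]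
  refine Fintype.card_congr ⟨fun a => Equiv.ofBijective
    (fun i => (⟨a.1 i, (Finset.ext_iff.1 a.2.2 (a.1 i)).1
      (mem_image_of_mem _ (mem_univ i))⟩ : e)) ⟨?_, ?_⟩,
    fun σ => ⟨fun i => (σ i : Fin n), ?_, ?_⟩, ?_, ?_⟩
  · intro i j hij
    exact a.2.1 (congrArg Subtype.val hij)
  · rintro ⟨w, hw⟩
    obtain ⟨i, -, hi⟩ := mem_image.1 ((Finset.ext_iff.1 a.2.2 w).2 hw)
    exact ⟨i, Subtype.ext hi⟩
  · intro i j hij
    exact σ.injective (Subtype.ext hij)
  · ext w
    rw [mem_image]
    constructor
    · rintro ⟨i, -, rfl⟩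
      exact (σ i).2
    · intro hw
      exact ⟨σ.symm ⟨w, hw⟩, mem_univ _, by rw [Equiv.apply_symm_apply]⟩
  · intro a
    rfl
  · intro σ
    ext i
    rfl

private theorem dens_count {k n : ℕ} {G : Finset (Finset (Fin n))} (h1 : IsKGraph k n G)
    (α : Type) [Fintype α] [DecidableEq α] (hα : Fintype.card α = k) :
    (univ.filter fun a : α → Fin n => Function.Injective a ∧ univ.image a ∈ G).card =
      G.card * k.factorial := by
  classical
  have h2 : (univ.filter fun a : α → Fin n => Function.Injective a ∧ univ.image a ∈ G) =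
      G.biUnion fun e => univ.filter fun a : α → Fin n =>
        Function.Injective a ∧ univ.image a = e := by
    ext a
    simp only [mem_filter, mem_univ, true_and, mem_biUnion]
    constructor
    · rintro ⟨h, h'⟩
      exact ⟨_, h', h, rfl⟩
    · rintro ⟨e, he, h, rfl⟩
      exact ⟨h, he⟩
  rw [h2, card_biUnion, sum_congr rfl fun e he => dens_card α e (by rw [hα]; exact h1 e he),
    sum_const, smul_eq_mul, hα]
  intro e he e' he' hne
  rw [Function.onFun, disjoint_left]
  intro a ha ha'
  exact hne ((mem_filter.1 ha).2.2.symm.trans (mem_filter.1 ha').2.2)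

private theorem dens_nodup {n : ℕ} {ι : Type} [Fintype ι] [DecidableEq ι] (J : Finset ι)
    (s : ι → Fin n) : (J.val.map s).Nodup ↔ Function.Injective fun i : J => s i := by
  constructor
  · intro h i j hij
    exact Subtype.ext (Multiset.inj_on_of_nodup_map h i i.2 j j.2 hij)
  · intro h
    refine Multiset.Nodup.map_on ?_ J.nodup
    intro i hi j hj hij
    exact congrArg Subtype.val (@h ⟨i, hi⟩ ⟨j, hj⟩ hij)

private theorem dens_image {n : ℕ} {ι : Type} [Fintype ι] [DecidableEq ι] (J : Finset ι)
    (s : ι → Fin n) : J.image s = univ.image fun i : J => s i := by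
  ext w
  simp only [mem_image, mem_univ, true_and]
  constructor
  · rintro ⟨i, hi, rfl⟩
    exact ⟨⟨i, hi⟩, rfl⟩
  · rintro ⟨i, rfl⟩
    exact ⟨i, i.2, rfl⟩

private theorem dens_cl {k n : ℕ} {G : Finset (Finset (Fin n))} {ι : Type} [Fintype ι]
    [DecidableEq ι] {J : Finset ι} (hJ : J.card = k) (s : ι → Fin n) :
    Cl (ed G) k s J ↔ Function.Injective (fun i : J => s i) ∧
      univ.image (fun i : J => s i) ∈ G := by
  rw [← dens_nodup, ← dens_image]
  constructor
  · intro h
    exact not_not.1 (h J (Finset.Subset.refl _) hJ)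
  · intro h I hI hc
    have h2 : I = J := eq_of_subset_of_card_le hI (by rw [hJ, hc])
    rw [h2]
    exact not_not.2 h

theorem pn_ed {k n : ℕ} (hn : 0 < n) {G : Finset (Finset (Fin n))} (h1 : IsKGraph k n G) (ι : Type)
    [Fintype ι] [DecidableEq ι] (hι : k ≤ Fintype.card ι) :
    pn (ed G) k ι k = (k.factorial : ℝ) * (G.card : ℝ) / (n : ℝ) ^ k := by
  classical
  obtain ⟨J, -, hJ⟩ := exists_subset_card_eq (s := (univ : Finset ι)) (n := k)
    (by rw [card_univ]; exact hι)
  have h2 := EE_cl (F := ed G) (k := k) J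
  rw [hJ] at h2
  rw [← h2]
  unfold EE
  have h3 : ∑ s : ι → Fin n, cl (ed G) k J s =
      ((univ.filter fun s : ι → Fin n => Cl (ed G) k s J).card : ℝ) := by
    rw [card_filter, Nat.cast_sum]
    refine sum_congr rfl fun s _ => ?_
    unfold cl
    split_ifs <;> simp
  have h4 : (univ.filter fun s : ι → Fin n => Cl (ed G) k s J).card =
      (univ.filter fun p : (J → Fin n) × ({i // i ∉ J} → Fin n) =>
        Function.Injective p.1 ∧ univ.image p.1 ∈ G).card := by
    refine card_equiv (Equiv.piEquivPiSubtypeProd (fun i => i ∈ J) fun _ => Fin n) fun s => ?_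
    rw [mem_filter, mem_filter, dens_cl hJ]
    simp [Equiv.piEquivPiSubtypeProd]
  have h5 : (univ.filter fun p : (J → Fin n) × ({i // i ∉ J} → Fin n) =>
        Function.Injective p.1 ∧ univ.image p.1 ∈ G) =
      (univ.filter fun a : J → Fin n => Function.Injective a ∧ univ.image a ∈ G) ×ˢ univ := by
    ext p
    simp
  have h6 : Fintype.card {i // i ∉ J} = Fintype.card ι - k := by
    rw [Fintype.card_subtype_compl, Fintype.card_coe, hJ]
  rw [h3, h4, h5, card_product, dens_count h1 J (by rw [Fintype.card_coe, hJ]), card_univ,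
    Fintype.card_fun, Fintype.card_fin, h6]
  have h7 : (n : ℝ) ≠ 0 := by exact_mod_cast hn.ne'
  have h8 : (n : ℝ) ^ Fintype.card ι = (n : ℝ) ^ (Fintype.card ι - k) * (n : ℝ) ^ k := by
    rw [← pow_add, Nat.sub_add_cancel hι]
  push_cast
  rw [h8]
  field_simp

theorem dens_of {k m : ℕ} (hk : 1 ≤ k) (hkm : k ≤ m) {A : ℝ} (h : ∀ n : ℕ, 0 < n →
    (k.factorial : ℝ) * (exNum k m n : ℝ) / (n : ℝ) ^ k ≤ 1 - A) : A ≤ 1 - turanDensity k m := by
  have _ := hk
  have h1 : turanDensity k m ≤ 1 - A := by
    refine turanDensity_le_of_pow hkm ?_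
    filter_upwards [Filter.eventually_gt_atTop 0] with n hn G hG1 hG2
    have h2 := h n hn
    have h3 : (G.card : ℝ) ≤ (exNum k m n : ℝ) := by exact_mod_cast card_le_exNum hG1 hG2
    have h4 : (0 : ℝ) < (n : ℝ) ^ k := pow_pos (by exact_mod_cast hn) k
    have h5 : (0 : ℝ) < (k.factorial : ℝ) := by exact_mod_cast Nat.factorial_pos k
    rw [div_le_iff₀ h4] at h2
    rw [mul_div_assoc', le_div_iff₀ h5]
    nlinarith
  linarith

end Pool.Agent.DCN
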