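import Pool.Agent.DCN.Main
import Pool.Agent.DCN.Dens
import Pool.Agent.DCX.ToTuran
import Pool.Agent.Helper2.AUniformDeCaenStatement

/-!
# DCN-Fin: the theorem for the Turan density (paper section 5)

`final_fin`: the product-space theorem `core` applied to an extremal hypergraph on `Fin n`.
`final_N`: the same for the Turan density (`dens_of`).
`final_all`: one constant `c > 0` for all `k ≥ 3` and all `m ≥ (2 + η) k`: a factor `2` for large `k` and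
`m ≥ α₀ k` (`Pool.Agent.DCX.main_T`), the constants of `Pool.Agent.Helper2.AUniformDeCaen.statement` for the
finitely many small `k`, and `final_N` for the remaining `m`.
-/

namespace Pool.Agent.DCN

open Finset Pool.Agent.Helper1.Turan

/-- the explicit factor, `ρ = (k-1)/(m-1)` -/
noncomputable def fac (k m : ℕ) : ℝ :=
  1 + (((k : ℝ) - 1) / ((m : ℝ) - 1)) ^ 4 *
    (1 - 2 * (((k : ℝ) - 1) / ((m : ℝ) - 1)) - 1 / ((k : ℝ) - 1)) / 18

theorem final_fin {k m : ℕ} (hk : 3 ≤ k) (hkm : k < m)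
    (hpos : 0 < 1 - 2 * (((k : ℝ) - 1) / ((m : ℝ) - 1)) - 1 / ((k : ℝ) - 1)) :
    ∀ n : ℕ, 0 < n → (k.factorial : ℝ) * (exNum k m n : ℝ) / (n : ℝ) ^ k ≤
      1 - fac k m / ((m - 1).choose (k - 1) : ℝ) := by
  intro n hn
  have hkR : (3 : ℝ) ≤ (k : ℝ) := by exact_mod_cast hk
  have hmR : (k : ℝ) + 1 ≤ (m : ℝ) := by exact_mod_cast hkm
  have hm1 : (0 : ℝ) < (m : ℝ) - 1 := by linarith
  have hk1 : (0 : ℝ) < (k : ℝ) - 1 := by linarith
  have h1 : 0 < 1 / ((k : ℝ) - 1) := by positivity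
  have h2 : 2 * ((k : ℝ) - 1) < (m : ℝ) - 1 := by
    have h3 : 2 * (((k : ℝ) - 1) / ((m : ℝ) - 1)) < 1 := by linarith
    have h4 : 2 * (((k : ℝ) - 1) / ((m : ℝ) - 1)) = (2 * ((k : ℝ) - 1)) / ((m : ℝ) - 1) := by ring
    rw [h4, div_lt_one hm1] at h3
    exact h3
  have h5 : 2 * k < m + 1 := by
    have h6 : (2 * (k : ℝ)) < (m : ℝ) + 1 := by linarith
    exact_mod_cast h6
  have hkm2 : k + 2 ≤ m := by omega
  obtain ⟨G, g1, g2, g3⟩ := exists_exNum (n := n) hkm.le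
  haveI : Nonempty (Fin n) := ⟨⟨0, hn⟩⟩
  have hc := core (V := Fin n) (ι := Fin (m + 1)) (F := ed G) (k := k) (m := m) hk hkm2 (by simp)
    (ed_tu (by omega) hkm.le g1 g2 (Fin (m + 1))) hpos
  rw [pn_ed hn g1 (Fin (m + 1)) (by rw [Fintype.card_fin]; omega), g3] at hc
  unfold fac
  linarith

theorem final_N {k m : ℕ} (hk : 3 ≤ k) (hkm : k < m)
    (hpos : 0 < 1 - 2 * (((k : ℝ) - 1) / ((m : ℝ) - 1)) - 1 / ((k : ℝ) - 1)) :
    fac k m / ((m - 1).choose (k - 1) : ℝ) ≤ 1 - turanDensity k m :=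
  dens_of (by omega) hkm.le (final_fin hk hkm hpos)

/-- one constant for finitely many `k` -/
private theorem Fin_small (K : ℕ) : ∃ c : ℝ, 0 < c ∧ ∀ k m : ℕ, 3 ≤ k → k < K → k < m →
    (1 + c) / ((m - 1).choose (k - 1) : ℝ) ≤ 1 - turanDensity k m := by
  induction K with
  | zero => exact ⟨1, one_pos, by intro k m _ h; omega⟩
  | succ K ih =>
    obtain ⟨c, hc, h⟩ := ih
    by_cases hK : 3 ≤ K
    · obtain ⟨c', hc', h'⟩ := Pool.Agent.Helper2.AUniformDeCaen.statement K hK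
      refine ⟨min c c', lt_min hc hc', ?_⟩
      intro k m hk hkK hkm
      have hch : (0 : ℝ) ≤ ((m - 1).choose (k - 1) : ℝ) := Nat.cast_nonneg _
      rcases Nat.lt_or_eq_of_le (Nat.lt_succ_iff.1 hkK) with h1 | h1
      · have h3 := h k m hk h1 hkm
        have h2 : (1 + min c c') / ((m - 1).choose (k - 1) : ℝ) ≤
            (1 + c) / ((m - 1).choose (k - 1) : ℝ) :=
          div_le_div_of_nonneg_right (by linarith [min_le_left c c']) hch
        linarith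
      · subst h1
        have h3 := (h' m hkm).2
        have h2 : (1 + min c c') / ((m - 1).choose (k - 1) : ℝ) ≤
            (1 + c') / ((m - 1).choose (k - 1) : ℝ) :=
          div_le_div_of_nonneg_right (by linarith [min_le_right c c']) hch
        linarith
    · refine ⟨c, hc, ?_⟩
      intro k m hk hkK hkm
      exfalso
      omega

theorem final_all {η : ℝ} (hη : 0 < η) : ∃ c : ℝ, 0 < c ∧ ∀ k m : ℕ, 3 ≤ k → (2 + η) * (k : ℝ) ≤ (m : ℝ) →
    (1 + c) / ((m - 1).choose (k - 1) : ℝ) ≤ 1 - turanDensity k m := by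
  obtain ⟨k₀, α₀, hT⟩ := Pool.Agent.DCX.main_T 2 (by norm_num)
  obtain ⟨α, hαdef⟩ : ∃ α : ℝ, α = max α₀ 1 := ⟨_, rfl⟩
  have hα1 : 1 ≤ α := by rw [hαdef]; exact le_max_right _ _
  have hα0 : α₀ ≤ α := by rw [hαdef]; exact le_max_left _ _
  have hαpos : 0 < α := by linarith
  obtain ⟨K, hKdef⟩ : ∃ K : ℕ, K = max k₀ (⌈2 * (2 + η) / η⌉₊ + 2) := ⟨_, rfl⟩
  obtain ⟨δ, hδdef⟩ : ∃ δ : ℝ, δ = η / (2 * (2 + η)) := ⟨_, rfl⟩
  have h2η : (0 : ℝ) < 2 + η := by linarith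
  have hδ : 0 < δ := by rw [hδdef]; positivity
  obtain ⟨c₁, hc₁, hS⟩ := Fin_small K
  obtain ⟨c₂, hc₂def⟩ : ∃ c₂ : ℝ, c₂ = (1 / (2 * α)) ^ 4 * δ / 18 := ⟨_, rfl⟩
  have hc₂ : 0 < c₂ := by rw [hc₂def]; positivity
  refine ⟨min (min c₁ 1) c₂, lt_min (lt_min hc₁ one_pos) hc₂, ?_⟩
  intro k m hk hm
  have hl1 : min (min c₁ 1) c₂ ≤ c₁ := (min_le_left _ _).trans (min_le_left _ _)
  have hl2 : min (min c₁ 1) c₂ ≤ 1 := (min_le_left _ _).trans (min_le_right _ _)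
  have hl3 : min (min c₁ 1) c₂ ≤ c₂ := min_le_right _ _
  have hch : (0 : ℝ) ≤ ((m - 1).choose (k - 1) : ℝ) := Nat.cast_nonneg _
  have hkR : (3 : ℝ) ≤ (k : ℝ) := by exact_mod_cast hk
  have hmk : 2 * (k : ℝ) < (m : ℝ) := by nlinarith
  have hkm : k < m := by
    have h1 : (k : ℝ) < (m : ℝ) := by linarith
    exact_mod_cast h1
  by_cases hkK : k < K
  · exact (div_le_div_of_nonneg_right (by linarith) hch).trans (hS k m hk hkK hkm)
  push Not at hkK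
  have hkk₀ : k₀ ≤ k := by
    have := le_max_left k₀ (⌈2 * (2 + η) / η⌉₊ + 2)
    omega
  by_cases hbig : α * (k : ℝ) ≤ (m : ℝ)
  · have h1 : α₀ * (k : ℝ) ≤ (m : ℝ) :=
      (mul_le_mul_of_nonneg_right hα0 (by linarith)).trans hbig
    have h2 := (hT k m hkk₀ h1).2.2
    exact (div_le_div_of_nonneg_right (by linarith) hch).trans h2
  push Not at hbig
  have hkbig : 2 * (2 + η) / η + 1 ≤ (k : ℝ) := by
    have h1 : ⌈2 * (2 + η) / η⌉₊ + 2 ≤ k := by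
      have := le_max_right k₀ (⌈2 * (2 + η) / η⌉₊ + 2)
      omega
    have h2 : ((⌈2 * (2 + η) / η⌉₊ + 2 : ℕ) : ℝ) ≤ (k : ℝ) := by exact_mod_cast h1
    have h3 : 2 * (2 + η) / η ≤ (⌈2 * (2 + η) / η⌉₊ : ℝ) := Nat.le_ceil _
    push_cast at h2
    linarith
  have hk1 : (0 : ℝ) < (k : ℝ) - 1 := by linarith
  have hm1 : (0 : ℝ) < (m : ℝ) - 1 := by linarith
  obtain ⟨ρ, hρdef⟩ : ∃ ρ : ℝ, ρ = ((k : ℝ) - 1) / ((m : ℝ) - 1) := ⟨_, rfl⟩
  have hρlow : 1 / (2 * α) ≤ ρ := by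
    rw [hρdef, div_le_div_iff₀ (by positivity) hm1]
    nlinarith
  have hρhigh : ρ ≤ 1 / (2 + η) := by
    rw [hρdef, div_le_div_iff₀ hm1 h2η]
    nlinarith
  have hkinv : 1 / ((k : ℝ) - 1) ≤ δ := by
    have h1 : 2 * (2 + η) / η ≤ (k : ℝ) - 1 := by linarith
    have h2 : 1 / ((k : ℝ) - 1) ≤ 1 / (2 * (2 + η) / η) :=
      one_div_le_one_div_of_le (by positivity) h1
    have h3 : 1 / (2 * (2 + η) / η) = δ := by
      rw [hδdef, one_div_div]
    linarith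
  have hgap : δ ≤ 1 - 2 * ρ - 1 / ((k : ℝ) - 1) := by
    have h1 : 1 - 2 * (1 / (2 + η)) = 2 * δ := by
      rw [hδdef]
      field_simp
      ring
    linarith
  have hN := final_N hk hkm (by rw [← hρdef]; linarith)
  have hfac : 1 + c₂ ≤ fac k m := by
    unfold fac
    rw [← hρdef, hc₂def]
    have h1 : (1 / (2 * α)) ^ 4 ≤ ρ ^ 4 := pow_le_pow_left₀ (by positivity) hρlow 4
    have h3 : (1 / (2 * α)) ^ 4 * δ ≤ ρ ^ 4 * (1 - 2 * ρ - 1 / ((k : ℝ) - 1)) :=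
      mul_le_mul h1 hgap hδ.le ((by positivity : (0 : ℝ) ≤ (1 / (2 * α)) ^ 4).trans h1)
    linarith
  exact (div_le_div_of_nonneg_right (by linarith) hch).trans hN

end Pool.Agent.DCN
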