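import Pool.Agent.DCN.Comb

/-!
# DCN-Lev: the de Caen recursion with variances (paper section 1)

`level_var`: the correlation of two extensions of `Q` is the square of the mean plus the variance.
`level_count`: for `|S| = j + 1` the number `c` of the `a ∈ S` such that `S ∖ a` contains no edge is `j + 1` or at most
`k`, so `c (c - 1) ≤ (k - 1) c + (j + 1) (j + 1 - k) cl S`; expectation, all pairs `a ≠ b` have the same correlation.
`level_top`: the exact form for the top level.
-/

namespace Pool.Agent.DCN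

open Finset

variable {V : Type} [Fintype V] [DecidableEq V] {ι : Type} [Fintype ι] [DecidableEq ι]

variable {F : Multiset V → Prop} {k : ℕ}

/-- the variance of the extension measure of `Q` -/
noncomputable def Va (F : Multiset V → Prop) (k : ℕ) (Q : Finset ι) (a : ι) : ℝ :=
  EE (fun s : ι → V => cl F k Q s * (avg a (cl F k (insert a Q)) s -
    pn (V := V) F k ι (Q.card + 1) / pn (V := V) F k ι Q.card) ^ 2)

theorem Va_nonneg (Q : Finset ι) (a : ι) : 0 ≤ Va F k Q a := by
  unfold Va
  exact EE_nonneg fun s => mul_nonneg (cl_nonneg _ _) (sq_nonneg _)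

theorem Va_swap {Q : Finset ι} {a b : ι} (ha : a ∉ Q) (hb : b ∉ Q) : Va F k Q a = Va F k Q b := by
  unfold Va
  congr 1
  funext s
  rw [avg_swap ha hb s]

private theorem Lev_cl_avg {Q : Finset ι} {a : ι} (ha : a ∉ Q) (s : ι → V) :
    cl F k Q s * avg a (cl F k (insert a Q)) s = avg a (cl F k (insert a Q)) s := by
  rw [← avg_mul (ind_cl ha) s]
  congr 1
  funext t
  exact cl_mul_of_sub (Finset.subset_insert a Q) t

theorem level_var [Nonempty V] {Q : Finset ι} {a b : ι} (ha : a ∉ Q) (hb : b ∉ Q) (hab : a ≠ b)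
    (hp : 0 < pn (V := V) F k ι Q.card) :
    EE (fun s : ι → V => cl F k (insert a Q) s * cl F k (insert b Q) s) =
      pn (V := V) F k ι (Q.card + 1) ^ 2 / pn (V := V) F k ι Q.card + Va F k Q a := by
  have hba : b ∉ insert a Q := by
    rw [Finset.mem_insert, not_or]
    exact ⟨fun h => hab h.symm, hb⟩
  have hab' : a ∉ insert b Q := by
    rw [Finset.mem_insert, not_or]
    exact ⟨hab, ha⟩
  have h1 : EE (fun s : ι → V => cl F k (insert a Q) s * cl F k (insert b Q) s) =
      EE (fun s : ι → V => avg a (cl F k (insert a Q)) s ^ 2) := by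
    rw [EE_mul_avg (ind_cl hba) (ind_cl hab')]
    congr 1
    funext s
    rw [avg_swap hb ha s, sq]
  have h2 : EE (avg a (cl F k (insert a Q)) : (ι → V) → ℝ) = pn (V := V) F k ι (Q.card + 1) := by
    rw [EE_avg, EE_cl, Finset.card_insert_of_notMem ha]
  have h3 : EE (cl F k Q : (ι → V) → ℝ) = pn (V := V) F k ι Q.card := EE_cl Q
  rw [h1]
  generalize hp1 : pn (V := V) F k ι (Q.card + 1) = p' at *
  generalize hp0 : pn (V := V) F k ι Q.card = p at *
  have h4 : Va F k Q a = EE (fun s : ι → V => avg a (cl F k (insert a Q)) s ^ 2) -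
      (2 * (p' / p)) * p' + (p' / p) ^ 2 * p := by
    unfold Va
    rw [hp1, hp0]
    have h5 : (fun s : ι → V => cl F k Q s * (avg a (cl F k (insert a Q)) s - p' / p) ^ 2) =
        fun s => (avg a (cl F k (insert a Q)) s ^ 2 -
          (2 * (p' / p)) * avg a (cl F k (insert a Q)) s) + (p' / p) ^ 2 * cl F k Q s := by
      funext s
      have h6 := Lev_cl_avg (F := F) (k := k) ha s
      generalize avg a (cl F k (insert a Q)) s = d at *
      generalize cl F k Q s = c at *
      linear_combination (d - 2 * (p' / p)) * h6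
    rw [h5, EE_add (fun s => avg a (cl F k (insert a Q)) s ^ 2 -
      (2 * (p' / p)) * avg a (cl F k (insert a Q)) s) (fun s => (p' / p) ^ 2 * cl F k Q s),
      EE_sub (fun s => avg a (cl F k (insert a Q)) s ^ 2)
      (fun s => (2 * (p' / p)) * avg a (cl F k (insert a Q)) s),
      EE_mul_left, EE_mul_left, h2, h3]
  rw [h4]
  field_simp
  ring

private theorem Lev_swap {S : Finset ι} {x y : ι} (hx : x ∈ S) (hy : y ∈ S) (a b : ι) :
    EE (fun s : ι → V => cl F k (S.erase (Equiv.swap x y a)) s *
      cl F k (S.erase (Equiv.swap x y b)) s) =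
      EE (fun s : ι → V => cl F k (S.erase a) s * cl F k (S.erase b) s) := by
  have hS : S.map (Equiv.swap x y).toEmbedding = S := by
    apply Finset.eq_of_subset_of_card_le
    · intro z hz
      rw [Finset.mem_map] at hz
      obtain ⟨w, hw, rfl⟩ := hz
      rw [Equiv.coe_toEmbedding]
      by_cases h1 : w = x
      · rw [h1, Equiv.swap_apply_left]
        exact hy
      · by_cases h2 : w = y
        · rw [h2, Equiv.swap_apply_right]
          exact hx
        · rw [Equiv.swap_apply_of_ne_of_ne h1 h2]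
          exact hw
    · rw [Finset.card_map]
  rw [← EE_perm (Equiv.swap x y) (fun s : ι → V => cl F k (S.erase a) s * cl F k (S.erase b) s)]
  congr 1
  funext s
  rw [cl_perm, cl_perm, Finset.map_erase, Finset.map_erase, hS]
  rfl

private theorem Lev_pair {S : Finset ι} {a b a' b' : ι} (ha : a ∈ S) (hb : b ∈ S) (hab : a ≠ b)
    (ha' : a' ∈ S) (hb' : b' ∈ S) (hab' : a' ≠ b') :
    EE (fun s : ι → V => cl F k (S.erase a') s * cl F k (S.erase b') s) =
      EE (fun s : ι → V => cl F k (S.erase a) s * cl F k (S.erase b) s) := by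
  have hb1 : Equiv.swap a a' b ∈ S := by
    by_cases h2 : b = a'
    · rw [h2, Equiv.swap_apply_right]
      exact ha
    · rw [Equiv.swap_apply_of_ne_of_ne (Ne.symm hab) h2]
      exact hb
  have h1 : a' ≠ Equiv.swap a a' b := by
    intro h
    have h0 : Equiv.swap a a' a = Equiv.swap a a' b := by
      rw [Equiv.swap_apply_left]
      exact h
    exact hab ((Equiv.swap a a').injective h0)
  have h2 := Lev_swap (V := V) (F := F) (k := k) ha ha' a b
  have h3 := Lev_swap (V := V) (F := F) (k := k) hb1 hb' a' (Equiv.swap a a' b)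
  rw [Equiv.swap_apply_left] at h2 h3
  rw [Equiv.swap_apply_of_ne_of_ne h1 hab'] at h3
  rw [h3, h2]

private theorem Lev_kr_le {s : ι → V} {S : Finset ι} (hn : ¬ Cl F k s S) :
    (∑ a ∈ S, cl F k (S.erase a) s) ≤ k := by
  classical
  obtain ⟨E, hE, hc, hF⟩ := exists_edge hn
  have h1 : (∑ a ∈ S, cl F k (S.erase a) s) = ∑ a ∈ E, cl F k (S.erase a) s := by
    symm
    apply Finset.sum_subset hE
    intro a _ haE
    apply cl_of_not
    intro h
    refine h E (fun b hb => Finset.mem_erase.2 ⟨?_, hE hb⟩) hc hF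
    rintro rfl
    exact haE hb
  rw [h1]
  calc (∑ a ∈ E, cl F k (S.erase a) s) ≤ ∑ _a ∈ E, (1 : ℝ) :=
        Finset.sum_le_sum fun a _ => cl_le_one _ _
    _ = k := by rw [Finset.sum_const, hc, nsmul_eq_mul, mul_one]

private theorem Lev_point {s : ι → V} {S : Finset ι} {j : ℕ} (hS : S.card = j + 1) :
    (∑ a ∈ S, cl F k (S.erase a) s) * (∑ a ∈ S, cl F k (S.erase a) s) ≤
      k * (∑ a ∈ S, cl F k (S.erase a) s) + ((j : ℝ) + 1) * ((j : ℝ) + 1 - k) * cl F k S s := by
  have h0 : 0 ≤ ∑ a ∈ S, cl F k (S.erase a) s := Finset.sum_nonneg fun a _ => cl_nonneg _ _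
  by_cases h : Cl F k s S
  · have h1 : (∑ a ∈ S, cl F k (S.erase a) s) = (j : ℝ) + 1 := by
      have h2 : (∑ a ∈ S, cl F k (S.erase a) s) = ∑ _a ∈ S, (1 : ℝ) :=
        Finset.sum_congr rfl fun a _ => cl_of (Cl_mono h (Finset.erase_subset a S))
      rw [h2, Finset.sum_const, hS, nsmul_eq_mul, mul_one]
      push_cast
      ring
    rw [h1, cl_of h]
    exact le_of_eq (by ring)
  · rw [cl_of_not h, mul_zero, add_zero]
    exact mul_le_mul_of_nonneg_right (Lev_kr_le h) h0

theorem level_count (hk : 1 ≤ k) {j : ℕ} (hj : k ≤ j + 1) {S : Finset ι} (hS : S.card = j + 1) {a b : ι} (ha : a ∈ S)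
    (hb : b ∈ S) (hab : a ≠ b) :
    (j : ℝ) * EE (fun s : ι → V => cl F k (S.erase a) s * cl F k (S.erase b) s) ≤
      (j : ℝ) * pn (V := V) F k ι (j + 1) +
        ((k : ℝ) - 1) * (pn (V := V) F k ι j - pn (V := V) F k ι (j + 1)) := by
  have hcard : ∀ c ∈ S, (S.erase c).card = j := by
    intro c hc
    have h1 := Finset.card_erase_add_one hc
    omega
  have h1 : EE (fun s : ι → V => (∑ a ∈ S, cl F k (S.erase a) s) *
      (∑ a ∈ S, cl F k (S.erase a) s)) ≤
      EE (fun s : ι → V => k * (∑ a ∈ S, cl F k (S.erase a) s) +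
        ((j : ℝ) + 1) * ((j : ℝ) + 1 - k) * cl F k S s) := EE_mono fun s => Lev_point hS
  have h2 : EE (fun s : ι → V => ∑ a ∈ S, cl F k (S.erase a) s) =
      ((j : ℝ) + 1) * pn (V := V) F k ι j := by
    rw [EE_sum S (fun a s => cl F k (S.erase a) s)]
    have h3 : ∀ c ∈ S, EE (fun s : ι → V => cl F k (S.erase c) s) = pn (V := V) F k ι j := by
      intro c hc
      have h4 := EE_cl (V := V) (F := F) (k := k) (S.erase c)
      rw [hcard c hc] at h4
      exact h4
    rw [Finset.sum_congr rfl h3, Finset.sum_const, hS, nsmul_eq_mul]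
    push_cast
    ring
  have h5 : EE (fun s : ι → V => k * (∑ a ∈ S, cl F k (S.erase a) s) +
        ((j : ℝ) + 1) * ((j : ℝ) + 1 - k) * cl F k S s) =
      k * (((j : ℝ) + 1) * pn (V := V) F k ι j) +
        ((j : ℝ) + 1) * ((j : ℝ) + 1 - k) * pn (V := V) F k ι (j + 1) := by
    rw [EE_add (fun s : ι → V => k * (∑ a ∈ S, cl F k (S.erase a) s))
      (fun s : ι → V => ((j : ℝ) + 1) * ((j : ℝ) + 1 - k) * cl F k S s), EE_mul_left,
      EE_mul_left, h2]
    have h4 := EE_cl (V := V) (F := F) (k := k) S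
    rw [hS] at h4
    rw [h4]
  have h6 : EE (fun s : ι → V => (∑ a ∈ S, cl F k (S.erase a) s) *
      (∑ a ∈ S, cl F k (S.erase a) s)) =
      ((j : ℝ) + 1) * (pn (V := V) F k ι j +
        j * EE (fun s : ι → V => cl F k (S.erase a) s * cl F k (S.erase b) s)) := by
    have h7 : (fun s : ι → V => (∑ a ∈ S, cl F k (S.erase a) s) *
        (∑ a ∈ S, cl F k (S.erase a) s)) =
        fun s => ∑ c ∈ S, ∑ d ∈ S, cl F k (S.erase c) s * cl F k (S.erase d) s := by
      funext s
      rw [Finset.sum_mul_sum]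
    rw [h7, EE_sum S (fun c s => ∑ d ∈ S, cl F k (S.erase c) s * cl F k (S.erase d) s)]
    have h8 : ∀ c ∈ S, EE (fun s : ι → V => ∑ d ∈ S, cl F k (S.erase c) s * cl F k (S.erase d) s)
        = pn (V := V) F k ι j +
        j * EE (fun s : ι → V => cl F k (S.erase a) s * cl F k (S.erase b) s) := by
      intro c hc
      rw [EE_sum S (fun d s => cl F k (S.erase c) s * cl F k (S.erase d) s),
        ← Finset.add_sum_erase S _ hc]
      congr 1
      · have h9 : (fun s : ι → V => cl F k (S.erase c) s * cl F k (S.erase c) s) =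
            cl F k (S.erase c) := by
          funext s
          exact cl_mul_self _ s
        rw [h9, EE_cl, hcard c hc]
      · have h10 : ∀ d ∈ S.erase c,
            EE (fun s : ι → V => cl F k (S.erase c) s * cl F k (S.erase d) s) =
            EE (fun s : ι → V => cl F k (S.erase a) s * cl F k (S.erase b) s) := by
          intro d hd
          rw [Finset.mem_erase] at hd
          exact Lev_pair ha hb hab hc hd.2 (Ne.symm hd.1)
        rw [Finset.sum_congr rfl h10, Finset.sum_const, hcard c hc, nsmul_eq_mul]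
    rw [Finset.sum_congr rfl h8, Finset.sum_const, hS, nsmul_eq_mul]
    push_cast
    ring
  rw [h5, h6] at h1
  generalize EE (fun s : ι → V => cl F k (S.erase a) s * cl F k (S.erase b) s) = X at *
  generalize pn (V := V) F k ι j = p at *
  generalize pn (V := V) F k ι (j + 1) = q at *
  have h11 : (0 : ℝ) < (j : ℝ) + 1 := by positivity
  have h12 : ((j : ℝ) + 1) * (p + j * X) ≤ ((j : ℝ) + 1) * (k * p + ((j : ℝ) + 1 - k) * q) := by
    refine h1.trans (le_of_eq (by ring))
  have h13 := le_of_mul_le_mul_left h12 h11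
  linarith

/-- the level inequality: `j p_j² / p_{j-1} + j Var ≤ j p_{j+1} + (k - 1) (p_j - p_{j+1})` -/
theorem level [Nonempty V] (hk : 1 ≤ k) {j : ℕ} (hj : k ≤ j) {Q : Finset ι} (hQ : Q.card + 1 = j) {a b : ι} (ha : a ∉ Q)
    (hb : b ∉ Q) (hab : a ≠ b) (hp : 0 < pn (V := V) F k ι (j - 1)) :
    (j : ℝ) * (pn (V := V) F k ι j ^ 2 / pn (V := V) F k ι (j - 1)) + (j : ℝ) * Va F k Q a ≤
      (j : ℝ) * pn (V := V) F k ι (j + 1) +
        ((k : ℝ) - 1) * (pn (V := V) F k ι j - pn (V := V) F k ι (j + 1)) := by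
  subst hQ
  rw [Nat.add_sub_cancel] at *
  have hab' : a ∉ insert b Q := by
    rw [Finset.mem_insert, not_or]
    exact ⟨hab, ha⟩
  have hba : b ∉ insert a Q := by
    rw [Finset.mem_insert, not_or]
    exact ⟨Ne.symm hab, hb⟩
  have hS : (insert a (insert b Q)).card = (Q.card + 1) + 1 := by
    rw [Finset.card_insert_of_notMem hab', Finset.card_insert_of_notMem hb]
  have h1 := level_count (V := V) (F := F) hk (hj.trans (Nat.le_succ _)) hS
    (Finset.mem_insert_self a _) (Finset.mem_insert_of_mem (Finset.mem_insert_self b Q)) hab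
  have h2 : (insert a (insert b Q)).erase a = insert b Q := Finset.erase_insert hab'
  have h3 : (insert a (insert b Q)).erase b = insert a Q := by
    rw [Finset.insert_comm, Finset.erase_insert hba]
  rw [h2, h3] at h1
  have h4 := level_var (V := V) (F := F) (k := k) hb ha (Ne.symm hab) hp
  rw [h4, Va_swap hb ha] at h1
  rw [← mul_add]
  exact h1

/-- the sum of the first moments: `Σ_a E cl C cl (C - a + x) = (k - 1) p - E cl C De` -/
private theorem Lev_sum_first {C : Finset ι} {x : ι} :
    (∑ a ∈ C, EE (fun s : ι → V => cl F k C s * cl F k (insert x (C.erase a)) s)) =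
      ((k : ℝ) - 1) * pn (V := V) F k ι C.card - EE (fun s : ι → V => cl F k C s * De F k C x s) := by
  classical
  rw [← EE_sum C (fun a s => cl F k C s * cl F k (insert x (C.erase a)) s), eq_sub_iff_add_eq,
    ← EE_add (fun s => ∑ a ∈ C, cl F k C s * cl F k (insert x (C.erase a)) s)
      (fun s => cl F k C s * De F k C x s), ← EE_cl C, ← EE_mul_left]
  congr 1
  funext s
  have h1 : ((Kr F k s C x).card : ℝ) = ∑ a ∈ C, cl F k (insert x (C.erase a)) s := by
    unfold Kr cl
    rw [Finset.card_filter, Nat.cast_sum]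
    refine Finset.sum_congr rfl fun a _ => ?_
    split_ifs <;> simp
  unfold De
  rw [h1, ← Finset.mul_sum]
  ring

/-- the top level, exact -/
theorem level_top [Nonempty V] {C : Finset ι} {x : ι} (hx : x ∉ C) (hC : 0 < C.card)
    (hp : 0 < pn (V := V) F k ι (C.card - 1)) :
    (C.card : ℝ) * (pn (V := V) F k ι C.card ^ 2 / pn (V := V) F k ι (C.card - 1)) +
      (∑ a ∈ C, Va F k (C.erase a) x) + EE (fun s : ι → V => cl F k C s * De F k C x s) =
        ((k : ℝ) - 1) * pn (V := V) F k ι C.card := by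
  have h1 := Lev_sum_first (V := V) (F := F) (k := k) (C := C) (x := x)
  have h2 : ∀ a ∈ C, EE (fun s : ι → V => cl F k C s * cl F k (insert x (C.erase a)) s) =
      pn (V := V) F k ι C.card ^ 2 / pn (V := V) F k ι (C.card - 1) + Va F k (C.erase a) x := by
    intro a ha
    have h3 : (C.erase a).card = C.card - 1 := Finset.card_erase_of_mem ha
    have h4 : (C.erase a).card + 1 = C.card := Finset.card_erase_add_one ha
    have h5 : x ∉ C.erase a := fun h => hx (Finset.mem_of_mem_erase h)
    have h6 : a ∉ C.erase a := Finset.notMem_erase a C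
    have h7 : a ≠ x := by
      rintro rfl
      exact hx ha
    have h8 := level_var (V := V) (F := F) (k := k) h6 h5 h7 (by rw [h3]; exact hp)
    rw [Finset.insert_erase ha, h4, h3, Va_swap h6 h5] at h8
    exact h8
  rw [Finset.sum_congr rfl h2, Finset.sum_add_distrib, Finset.sum_const, nsmul_eq_mul] at h1
  linarith

/-- the sum of the first moments: `Σ_a E cl C cl (C - a + x) = (k - 1) p - E cl C De` -/
theorem sum_first {C : Finset ι} {x : ι} (hx : x ∉ C) :
    (∑ a ∈ C, EE (fun s : ι → V => cl F k C s * cl F k (insert x (C.erase a)) s)) =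
      ((k : ℝ) - 1) * pn (V := V) F k ι C.card - EE (fun s : ι → V => cl F k C s * De F k C x s) :=
  Lev_sum_first

end Pool.Agent.DCN
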