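import Mathlib

/-!
# DCN-Num: the final numerical contradiction (paper section 4), real numbers only

`k - 1 = ρ M`, `τ = ρ - c`: `I1 ≥ M (ρ - c)²` (as `D ≤ c M`).  `h2`, `h3`: `(k - 2) I1 ≤ 4 (k - 1) D + 2 ρ⁴ M² + 8 (2 M (V1 + D) + V2)`
`≤ M² (4 ρ c + 2 ρ⁴ + 16 c + 8 c / (ρ - c))`; `(k - 2) / M = ρ (1 - 1/(k-1))`, so after division by `M²`, with `u = ρ³ (1 - 2 ρ - 1/(k-1))`, `c = ρ u / 18`:
`u ≤ 2 ρ² c + 4 ρ c + 16 c + 8 c / (ρ - c) ≤ u / 72 + u / 18 + 8 u / 18 + 64 u / 143 < u`.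
-/

namespace Pool.Agent.DCN

theorem num {k M c ρ D V1 V2 I1 I2 : ℝ} (hk : 3 ≤ k) (hM : 0 < M) (hρ : ρ = (k - 1) / M)
    (hpos : 0 < 1 - 2 * ρ - 1 / (k - 1)) (hc : c = ρ ^ 4 * (1 - 2 * ρ - 1 / (k - 1)) / 18)
    (hD0 : 0 ≤ D) (hV1 : 0 ≤ V1) (hD : V1 + D ≤ c * M) (hV2 : V2 ≤ c / (ρ - c) * M ^ 2)
    (h1 : ∀ τ : ℝ, 2 * τ * ((k - 1) - D) - τ ^ 2 * M ≤ I1)
    (h2 : I2 ≤ I1 + ρ ^ 4 * M ^ 2 + 4 * (2 * M * V1 + V2 + 2 * M * D))
    (h3 : k * I1 - 2 * I2 ≤ 4 * (k - 1) * D) : False := by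
  have hk1 : 0 < k - 1 := by linarith
  have hρ0 : 0 < ρ := by rw [hρ]; exact div_pos hk1 hM
  have hkM : k - 1 = ρ * M := by rw [hρ]; field_simp
  obtain ⟨δ, hδ⟩ : ∃ δ : ℝ, δ = 1 / (k - 1) := ⟨_, rfl⟩
  have hδ0 : 0 < δ := by rw [hδ]; exact one_div_pos.2 hk1
  have hδk : δ * (k - 1) = 1 := by rw [hδ]; field_simp
  rw [← hδ] at hpos hc
  have hρ1 : ρ < 1 / 2 := by linarith
  obtain ⟨u, hu⟩ : ∃ u : ℝ, u = ρ ^ 3 * (1 - 2 * ρ - δ) := ⟨_, rfl⟩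
  have hu0 : 0 < u := by rw [hu]; positivity
  have hcu : c = ρ * u / 18 := by rw [hc, hu]; ring
  have hc0 : 0 < c := by rw [hcu]; positivity
  have hρ3 : ρ ^ 3 ≤ 1 / 8 := by
    have := pow_le_pow_left₀ hρ0.le hρ1.le 3
    norm_num at this ⊢
    exact this
  have hρ2 : ρ ^ 2 ≤ 1 / 4 := by
    have := pow_le_pow_left₀ hρ0.le hρ1.le 2
    norm_num at this ⊢
    exact this
  have hu1 : u ≤ 1 / 8 := by
    rw [hu]
    calc ρ ^ 3 * (1 - 2 * ρ - δ) ≤ ρ ^ 3 * 1 := by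
          apply mul_le_mul_of_nonneg_left _ (by positivity)
          linarith
      _ ≤ 1 / 8 := by linarith
  have hcρ : c ≤ ρ / 144 := by
    have h5 := mul_le_mul_of_nonneg_left hu1 hρ0.le
    rw [hcu]
    linarith
  have hρc : 0 < ρ - c := by linarith
  have hDc : D ≤ c * M := by linarith
  -- the lower bound for `I1`
  have hI1 : M * (ρ - c) ^ 2 ≤ I1 := by
    refine le_trans ?_ (h1 (ρ - c))
    have h4 : 0 ≤ (ρ - c) * (c * M - D) := mul_nonneg hρc.le (by linarith)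
    rw [hkM]
    have h5 : 2 * (ρ - c) * (ρ * M - D) - (ρ - c) ^ 2 * M =
        M * (ρ - c) ^ 2 + 2 * ((ρ - c) * (c * M - D)) := by ring
    rw [h5]
    linarith
  -- the upper bound for `(k - 2) I1`
  have hw : c / (ρ - c) ≤ u * (8 / 143) := by
    rw [div_le_iff₀ hρc]
    have h4 : u * (8 / 143) * (143 / 144 * ρ) ≤ u * (8 / 143) * (ρ - c) :=
      mul_le_mul_of_nonneg_left (by linarith) (by positivity)
    refine le_trans (le_of_eq ?_) h4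
    rw [hcu]
    ring
  have hV2' : V2 ≤ M ^ 2 * (u * (8 / 143)) := by
    refine hV2.trans ?_
    rw [mul_comm (M ^ 2)]
    exact mul_le_mul_of_nonneg_right hw (by positivity)
  have hA : 16 * M * (V1 + D) ≤ M ^ 2 * (16 * c) := by
    have h6 : 16 * M * (V1 + D) ≤ 16 * M * (c * M) := mul_le_mul_of_nonneg_left hD (by positivity)
    refine h6.trans (le_of_eq ?_)
    ring
  have hE : 4 * (k - 1) * D ≤ M ^ 2 * (4 * ρ * c) := by
    have h6 : 4 * (k - 1) * D ≤ 4 * (k - 1) * (c * M) :=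
      mul_le_mul_of_nonneg_left hDc (by positivity)
    refine h6.trans (le_of_eq ?_)
    rw [hkM]
    ring
  have hF : (k - 2) * I1 ≤ M ^ 2 * (2 * ρ ^ 4 + 16 * c + u * (64 / 143) + 4 * ρ * c) := by
    have e1 : (k - 2) * I1 = k * I1 - 2 * I1 := by ring
    have e2 : M ^ 2 * (2 * ρ ^ 4 + 16 * c + u * (64 / 143) + 4 * ρ * c) =
        2 * (ρ ^ 4 * M ^ 2) + M ^ 2 * (16 * c) + 8 * (M ^ 2 * (u * (8 / 143))) +
          M ^ 2 * (4 * ρ * c) := by ring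
    have e3 : 16 * M * (V1 + D) = 16 * (M * V1) + 16 * (M * D) := by ring
    have e4 : 4 * (2 * M * V1 + V2 + 2 * M * D) = 8 * (M * V1) + 4 * V2 + 8 * (M * D) := by ring
    rw [e3] at hA
    rw [e4] at h2
    rw [e1, e2]
    linarith
  have hG : (k - 2) * (M * (ρ - c) ^ 2) ≤ (k - 2) * I1 :=
    mul_le_mul_of_nonneg_left hI1 (by linarith)
  have hk2 : k - 2 = ρ * M * (1 - δ) := by
    have h6 : δ * (ρ * M) = 1 := by rw [← hkM]; exact hδk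
    linear_combination hkM + h6
  have hH : M ^ 2 * (ρ * (1 - δ) * (ρ - c) ^ 2) ≤
      M ^ 2 * (2 * ρ ^ 4 + 16 * c + u * (64 / 143) + 4 * ρ * c) := by
    refine le_trans (le_of_eq ?_) (hG.trans hF)
    rw [hk2]
    ring
  have hI : ρ * (1 - δ) * (ρ - c) ^ 2 ≤ 2 * ρ ^ 4 + 16 * c + u * (64 / 143) + 4 * ρ * c :=
    le_of_mul_le_mul_left hH (by positivity)
  have hδ1 : 0 ≤ 1 - δ := by linarith
  have hJ : ρ ^ 3 * (1 - δ) - 2 * ρ ^ 2 * c ≤ ρ * (1 - δ) * (ρ - c) ^ 2 := by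
    have e : ρ * (1 - δ) * (ρ - c) ^ 2 - (ρ ^ 3 * (1 - δ) - 2 * ρ ^ 2 * c) =
        ρ * (1 - δ) * c ^ 2 + 2 * ρ ^ 2 * c * δ := by ring
    have e' : 0 ≤ ρ * (1 - δ) * c ^ 2 + 2 * ρ ^ 2 * c * δ := by positivity
    linarith
  have hu' : u = ρ ^ 3 * (1 - δ) - 2 * ρ ^ 4 := by rw [hu]; ring
  have hL1 : 2 * ρ ^ 2 * c ≤ u / 72 := by
    have h6 : 2 * ρ ^ 2 * c = ρ ^ 3 * (u / 9) := by rw [hcu]; ring
    have h7 := mul_le_mul_of_nonneg_right hρ3 (show (0 : ℝ) ≤ u / 9 by positivity)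
    rw [h6]
    linarith
  have hL2 : 4 * ρ * c ≤ u / 18 := by
    have h6 : 4 * ρ * c = ρ ^ 2 * (2 * u / 9) := by rw [hcu]; ring
    have h7 := mul_le_mul_of_nonneg_right hρ2 (show (0 : ℝ) ≤ 2 * u / 9 by positivity)
    rw [h6]
    linarith
  have hL3 : 16 * c ≤ 8 * u / 18 := by
    have h6 : 16 * c = ρ * (16 * u / 18) := by rw [hcu]; ring
    have h7 := mul_le_mul_of_nonneg_right hρ1.le (show (0 : ℝ) ≤ 16 * u / 18 by positivity)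
    rw [h6]
    linarith
  linarith

end Pool.Agent.DCN
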