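import Pool.Agent.DCN.Core
import Pool.Agent.DCN.Num

/-!
# DCN-Main: theorem N on the product space (paper section 4)

If the bound fails, `chain_top` gives the three top ratios, `level_top` the first variance and the defect, `level` the
second variance, and `num` (everything divided by `p (m - 1)`) is the contradiction.
-/

namespace Pool.Agent.DCN

open Finset

variable {V : Type} [Fintype V] [DecidableEq V] {ι : Type} [Fintype ι] [DecidableEq ι]

variable {F : Multiset V → Prop} {k : ℕ}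

private theorem Main_set {N : ℕ} (h : N + 2 ≤ Fintype.card ι) :
    ∃ (Q : Finset ι) (a b : ι), Q.card = N ∧ a ∉ Q ∧ b ∉ Q ∧ a ≠ b := by
  obtain ⟨S, -, hS⟩ := Finset.exists_subset_card_eq (s := (Finset.univ : Finset ι)) (n := N + 2)
    (by rw [Finset.card_univ]; exact h)
  have h1 : 0 < S.card := by omega
  obtain ⟨a, ha⟩ := Finset.card_pos.1 h1
  have h2 : (S.erase a).card = N + 1 := by
    rw [Finset.card_erase_of_mem ha]
    omega
  have h3 : 0 < (S.erase a).card := by omega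
  obtain ⟨b, hb⟩ := Finset.card_pos.1 h3
  have hba : b ≠ a := (Finset.mem_erase.1 hb).1
  refine ⟨(S.erase a).erase b, a, b, ?_, ?_, ?_, hba.symm⟩
  · rw [Finset.card_erase_of_mem hb]
    omega
  · intro h4
    exact (Finset.mem_erase.1 (Finset.mem_of_mem_erase h4)).1 rfl
  · intro h4
    exact (Finset.mem_erase.1 h4).1 rfl

private theorem Main_rec [Nonempty V] (hk : 1 ≤ k) {i : ℕ} (hi : k ≤ i)
    (hι : i + 1 ≤ Fintype.card ι) (hp : 0 < pn (V := V) F k ι (i - 1)) :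
    (i : ℝ) * (pn (V := V) F k ι i ^ 2 / pn (V := V) F k ι (i - 1)) ≤
      (i : ℝ) * pn (V := V) F k ι (i + 1) +
        ((k : ℝ) - 1) * (pn (V := V) F k ι i - pn (V := V) F k ι (i + 1)) := by
  obtain ⟨Q, a, b, hQ, ha, hb, hab⟩ := Main_set (ι := ι) (N := i - 1) (by omega)
  have h1 := level (F := F) hk hi (Q := Q) (by omega) ha hb hab hp
  have h2 : 0 ≤ (i : ℝ) * Va F k Q a := mul_nonneg (Nat.cast_nonneg _) (Va_nonneg Q a)
  linarith

private theorem Main_De [Nonempty V] {m : ℕ} (hT : Tu F k m (V := V) ι) {C : Finset ι}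
    (hm : C.card + 1 = m) {x : ι} (hx : x ∉ C) :
    0 ≤ EE (fun s : ι → V => cl F k C s * De F k C x s) := by
  refine EE_nonneg fun s => ?_
  by_cases h : Cl F k s C
  · rw [cl_of h, one_mul]
    refine De_nonneg hx h (hT s _ ?_)
    rw [Finset.card_insert_of_notMem hx, hm]
  · rw [cl_of_not h, zero_mul]

/-- the numbers -/
private theorem Main_c {ρ e : ℝ} (hρ : 0 < ρ) (hρ1 : ρ < 1 / 2) (he : 0 < e) (he1 : e < 1) :
    0 ≤ ρ ^ 4 * e / 18 ∧ ρ ^ 4 * e / 18 ≤ ρ / 144 := by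
  have h1 : ρ ^ 3 ≤ 1 / 8 := by
    have := pow_le_pow_left₀ hρ.le hρ1.le 3
    norm_num at this ⊢
    exact this
  have h3 : ρ ^ 4 * e ≤ ρ / 8 := by
    have h4 : ρ ^ 4 * e = ρ * (ρ ^ 3 * e) := by ring
    have h5 : ρ ^ 3 * e ≤ 1 / 8 * 1 := mul_le_mul h1 he1.le he.le (by norm_num)
    rw [h4]
    calc ρ * (ρ ^ 3 * e) ≤ ρ * (1 / 8 * 1) := mul_le_mul_of_nonneg_left h5 hρ.le
      _ = ρ / 8 := by ring
  constructor
  · positivity
  · linarith

/-- the bound of the second variance -/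
private theorem Main_va {P0 P1 P2 P3 β β' c j k' ρ va : ℝ} (h3 : 0 < P3) (h2 : 0 < P2) (h1 : 0 < P1)
    (hj : 0 < j) (hjk : 0 ≤ j - k' + 1) (hk' : 1 ≤ k') (hβ1 : β ≤ 1) (hc0 : 0 ≤ c)
    (hβ' : β' = (j - k' + 1) / j) (hρ : ρ = 1 - β) (hcρ : 0 < ρ - c)
    (hL : β ≤ 1 - P1 / P2) (hU : 1 - P1 / P2 ≤ (1 + c) * β) (hU2 : 1 - P2 / P3 ≤ (1 + c) * (β * β'))
    (hP0 : P0 = P1)
    (hlev : j * (P2 ^ 2 / P3) + j * va ≤ j * P0 + (k' - 1) * (P2 - P0)) :
    va ≤ c / (ρ - c) * P1 := by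
  subst hP0
  have e1 : P2 ^ 2 / P3 = P2 * (P2 / P3) := by rw [pow_two, mul_div_assoc]
  have e2 : P0 = P2 * (P0 / P2) := by field_simp
  set r1 := P0 / P2 with hr1
  set r2 := P2 / P3 with hr2
  have h4 : j * va ≤ P2 * (j * (1 - r2) - (j - k' + 1) * (1 - r1)) := by
    have h5 : j * (P2 * r2) + j * va ≤ j * (P2 * r1) + (k' - 1) * (P2 - P2 * r1) := by
      rw [← e2, ← e1]
      exact hlev
    nlinarith [h5]
  have h6 : j * (1 - r2) ≤ (1 + c) * β * (j - k' + 1) := by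
    have h7 : j * (1 - r2) ≤ j * ((1 + c) * (β * β')) := mul_le_mul_of_nonneg_left hU2 hj.le
    have h8 : j * ((1 + c) * (β * β')) = (1 + c) * β * (j - k' + 1) := by
      rw [hβ']
      field_simp
    linarith
  have h9 : (j - k' + 1) * β ≤ (j - k' + 1) * (1 - r1) := mul_le_mul_of_nonneg_left hL hjk
  have h10 : j * (1 - r2) - (j - k' + 1) * (1 - r1) ≤ c * j := by
    have h11 : (1 + c) * β * (j - k' + 1) - (j - k' + 1) * β = c * (β * (j - k' + 1)) := by ring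
    have h12 : β * (j - k' + 1) ≤ j := by
      have : β * (j - k' + 1) ≤ 1 * (j - k' + 1) := mul_le_mul_of_nonneg_right hβ1 hjk
      linarith
    have h13 : c * (β * (j - k' + 1)) ≤ c * j := mul_le_mul_of_nonneg_left h12 hc0
    linarith
  have h14 : j * va ≤ j * (c * P2) := by
    calc j * va ≤ P2 * (j * (1 - r2) - (j - k' + 1) * (1 - r1)) := h4
      _ ≤ P2 * (c * j) := mul_le_mul_of_nonneg_left h10 h2.le
      _ = j * (c * P2) := by ring
  have h15 : va ≤ c * P2 := le_of_mul_le_mul_left h14 hj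
  have h16 : ρ - c ≤ r1 := by
    have h17 : c * β ≤ c * 1 := mul_le_mul_of_nonneg_left hβ1 hc0
    have : (1 + c) * β = β + c * β := by ring
    linarith
  have h18 : P2 ≤ 1 / (ρ - c) * P0 := by
    have h19 : (ρ - c) * P2 ≤ P0 := by
      calc (ρ - c) * P2 ≤ r1 * P2 := mul_le_mul_of_nonneg_right h16 h2.le
        _ = P0 := by rw [mul_comm]; exact e2.symm
    rw [div_mul_eq_mul_div, le_div_iff₀ hcρ]
    linarith
  calc va ≤ c * P2 := h15
    _ ≤ c * (1 / (ρ - c) * P0) := mul_le_mul_of_nonneg_left h18 hc0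
    _ = c / (ρ - c) * P0 := by ring

theorem core [Nonempty V] {m : ℕ} (hk : 3 ≤ k) (hkm : k + 2 ≤ m) (hι : m + 1 ≤ Fintype.card ι)
    (hT : Tu F k m (V := V) ι)
    (hpos : 0 < 1 - 2 * (((k : ℝ) - 1) / ((m : ℝ) - 1)) - 1 / ((k : ℝ) - 1)) :
    (1 + (((k : ℝ) - 1) / ((m : ℝ) - 1)) ^ 4 *
        (1 - 2 * (((k : ℝ) - 1) / ((m : ℝ) - 1)) - 1 / ((k : ℝ) - 1)) / 18) /
      ((m - 1).choose (k - 1) : ℝ) ≤ 1 - pn (V := V) F k ι k := by
  by_contra hcon
  push Not at hcon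
  have hkR : (3 : ℝ) ≤ (k : ℝ) := by exact_mod_cast hk
  have hkmR : (k : ℝ) + 2 ≤ (m : ℝ) := by exact_mod_cast hkm
  have hM : (0 : ℝ) < (m : ℝ) - 1 := by linarith
  set ρ : ℝ := ((k : ℝ) - 1) / ((m : ℝ) - 1) with hρ
  set c : ℝ := ρ ^ 4 * (1 - 2 * ρ - 1 / ((k : ℝ) - 1)) / 18 with hc
  have hρ0 : 0 < ρ := div_pos (by linarith) hM
  have hk1 : 0 < 1 / ((k : ℝ) - 1) := div_pos one_pos (by linarith)
  have hρ1 : ρ < 1 / 2 := by linarith
  obtain ⟨hc0, hcρ⟩ := Main_c hρ0 hρ1 hpos (by linarith)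
  rw [← hc] at hc0 hcρ
  set p : ℕ → ℝ := fun j => pn (V := V) F k ι j with hp
  have hchain := chain_top (p := p) (k := k) (m := m) (by omega) hkm hc0
    (by linarith) (fun i => pn_nonneg i) (pn_small (by omega) (by omega)) (pn_top hT (by omega))
    (fun i hi hi' hpi => Main_rec (by omega) hi (by omega) hpi) hcon
  obtain ⟨hP1, hP2, hP3, hL, hU, hU2⟩ := hchain
  obtain ⟨C, x, y, hC, hx, hy, hxy⟩ := Main_set (ι := ι) (N := m - 1) (by omega)
  have hCm : C.card + 1 = m := by omega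
  have hCR : (C.card : ℝ) = (m : ℝ) - 1 := by
    rw [← hCm]
    push_cast
    ring
  have hC1 : C.card - 1 = m - 2 := by omega
  have hC2 : C.card - 2 = m - 3 := by omega
  set β : ℝ := ((m : ℝ) - k) / ((m : ℝ) - 1) with hβ
  set β' : ℝ := ((m : ℝ) - k - 1) / ((m : ℝ) - 2) with hβ'
  have hρβ : ρ = 1 - β := by
    rw [hρ, hβ]
    field_simp
    ring
  have hβ1 : β ≤ 1 := by linarith
  have hρc : 0 < ρ - c := by linarith
  set P : ℝ := p (m - 1) with hP
  set D : ℝ := EE (fun s : ι → V => cl F k C s * De F k C x s) with hD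
  have hD0 : 0 ≤ D := Main_De hT hCm hx
  set W1 : ℝ := ∑ a ∈ C, Va F k (C.erase a) x with hW1
  have hW10 : 0 ≤ W1 := Finset.sum_nonneg fun a _ => Va_nonneg _ _
  set W2 : ℝ := ∑ a ∈ C, ∑ b ∈ C.erase a, Va F k ((C.erase a).erase b) x with hW2
  set I1 : ℝ := EE (fun s : ι → V => cl F k C s * Io F k C x y s) with hI1
  set I2 : ℝ := EE (fun s : ι → V => cl F k C s * Io F k C x y s ^ 2) with hI2
  have hpC : pn (V := V) F k ι C.card = P := by rw [hC]
  -- the top level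
  have htop := level_top (F := F) (k := k) hx (by omega : 0 < C.card)
    (by rw [hC1]; exact hP2)
  rw [hpC, hC1, hCR] at htop
  change ((m : ℝ) - 1) * (P ^ 2 / p (m - 2)) + W1 + D = ((k : ℝ) - 1) * P at htop
  have hVD : W1 / P + D / P ≤ c * ((m : ℝ) - 1) := by
    have h1 : P ^ 2 / p (m - 2) = P * (P / p (m - 2)) := by rw [pow_two, mul_div_assoc]
    rw [h1] at htop
    have h2 : ((m : ℝ) - 1) * (1 - P / p (m - 2)) ≤ (1 + c) * ((m : ℝ) - k) := by
      calc ((m : ℝ) - 1) * (1 - P / p (m - 2)) ≤ ((m : ℝ) - 1) * ((1 + c) * β) :=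
            mul_le_mul_of_nonneg_left hU hM.le
        _ = (1 + c) * ((m : ℝ) - k) := by
            rw [hβ]
            field_simp
    have h3 : W1 + D = P * (((k : ℝ) - 1) - ((m : ℝ) - 1) * (P / p (m - 2))) := by
      linear_combination htop
    have h4 : ((k : ℝ) - 1) - ((m : ℝ) - 1) * (P / p (m - 2)) ≤ c * ((m : ℝ) - 1) := by
      have h5 : c * ((m : ℝ) - k) ≤ c * ((m : ℝ) - 1) :=
        mul_le_mul_of_nonneg_left (by linarith) hc0
      linarith
    rw [← add_div, h3, mul_div_cancel_left₀ _ hP1.ne']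
    exact h4
  -- the second variance
  have hva : ∀ a ∈ C, ∀ b ∈ C.erase a, Va F k ((C.erase a).erase b) x ≤ c / (ρ - c) * P := by
    intro a ha b hb
    have hcard : ((C.erase a).erase b).card + 1 = m - 2 := by
      rw [Finset.card_erase_of_mem hb, Finset.card_erase_of_mem ha]
      omega
    have ha' : a ∉ (C.erase a).erase b := fun h =>
      (Finset.mem_erase.1 (Finset.mem_of_mem_erase h)).1 rfl
    have hb' : b ∉ (C.erase a).erase b := fun h => (Finset.mem_erase.1 h).1 rfl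
    have hx' : x ∉ (C.erase a).erase b := fun h =>
      hx (Finset.mem_of_mem_erase (Finset.mem_of_mem_erase h))
    have hab : a ≠ b := fun h => (Finset.mem_erase.1 hb).1 h.symm
    rw [Va_swap hx' ha']
    have h3 : m - 2 - 1 = m - 3 := by omega
    have h1 := level (F := F) (by omega : 1 ≤ k) (by omega : k ≤ m - 2) hcard ha' hb' hab
      (by rw [h3]; exact hP3)
    have h2 : m - 2 + 1 = m - 1 := by omega
    rw [h2, h3] at h1
    have hcast : ((m - 2 : ℕ) : ℝ) = (m : ℝ) - 2 := by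
      rw [Nat.cast_sub (by omega)]
      norm_num
    rw [hcast] at h1
    refine Main_va (P0 := P) (P1 := P) (P2 := p (m - 2)) (P3 := p (m - 3)) (β := β) (β' := β')
      (j := (m : ℝ) - 2) (k' := (k : ℝ)) hP3 hP2 hP1 (by linarith) (by linarith) (by linarith)
      hβ1 hc0 ?_ hρβ hρc hL hU hU2 rfl h1
    rw [hβ']
    congr 1
    ring
  have hV2 : W2 / P ≤ c / (ρ - c) * ((m : ℝ) - 1) ^ 2 := by
    rw [div_le_iff₀ hP1]
    have hq : 0 ≤ c / (ρ - c) * P := mul_nonneg (div_nonneg hc0 hρc.le) hP1.le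
    have h1 : W2 ≤ ∑ a ∈ C, ((m : ℝ) - 1) * (c / (ρ - c) * P) := by
      refine Finset.sum_le_sum fun a ha => ?_
      refine (Finset.sum_le_sum (hva a ha)).trans ?_
      rw [Finset.sum_const, nsmul_eq_mul]
      refine mul_le_mul_of_nonneg_right ?_ hq
      rw [← hCR]
      exact_mod_cast (Finset.card_le_card (Finset.erase_subset a C))
    refine h1.trans (le_of_eq ?_)
    rw [Finset.sum_const, nsmul_eq_mul, hCR]
    ring
  -- the contradiction
  refine num (k := (k : ℝ)) (M := (m : ℝ) - 1) (c := c) (ρ := ρ) (D := D / P) (V1 := W1 / P)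
    (V2 := W2 / P) (I1 := I1 / P) (I2 := I2 / P) hkR hM hρ hpos hc (div_nonneg hD0 hP1.le)
    (div_nonneg hW10 hP1.le) hVD hV2 ?_ ?_ ?_
  · intro τ
    have h1 := mom1 (F := F) (k := k) hx hy hxy τ
    rw [hpC, hCR] at h1
    rw [le_div_iff₀ hP1]
    refine le_trans (le_of_eq ?_) h1
    have h2 : D / P * P = D := div_mul_cancel₀ _ hP1.ne'
    calc (2 * τ * (((k : ℝ) - 1) - D / P) - τ ^ 2 * ((m : ℝ) - 1)) * P =
        2 * τ * (((k : ℝ) - 1) * P - D / P * P) - τ ^ 2 * ((m : ℝ) - 1) * P := by ring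
      _ = _ := by rw [h2]
  · have h1 := mom2_le (F := F) (k := k) (by omega) hT hCm (by omega) (by omega) hx hy hxy
    rw [hpC, hCR] at h1
    rw [div_le_iff₀ hP1]
    refine h1.trans (le_of_eq ?_)
    have e1 : D / P * P = D := div_mul_cancel₀ _ hP1.ne'
    have e2 : W1 / P * P = W1 := div_mul_cancel₀ _ hP1.ne'
    have e3 : W2 / P * P = W2 := div_mul_cancel₀ _ hP1.ne'
    have e4 : I1 / P * P = I1 := div_mul_cancel₀ _ hP1.ne'
    have e5 : ((k : ℝ) - 1) ^ 4 / ((m : ℝ) - 1) ^ 2 = ρ ^ 4 * ((m : ℝ) - 1) ^ 2 := by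
      rw [hρ]
      field_simp
    calc _ = I1 + ((k : ℝ) - 1) ^ 4 / ((m : ℝ) - 1) ^ 2 * P +
          4 * (2 * ((m : ℝ) - 1) * W1 + W2 + 2 * ((m : ℝ) - 1) * D) := rfl
      _ = I1 / P * P + ρ ^ 4 * ((m : ℝ) - 1) ^ 2 * P +
          4 * (2 * ((m : ℝ) - 1) * (W1 / P * P) + W2 / P * P + 2 * ((m : ℝ) - 1) * (D / P * P)) := by
          rw [e1, e2, e3, e4, e5]
      _ = _ := by ring
  · have h1 := key_EE (F := F) (by omega : 1 ≤ k) hT hCm hx hy hxy
    have h2 : (k : ℝ) * (I1 / P) - 2 * (I2 / P) = ((k : ℝ) * I1 - 2 * I2) / P := by ring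
    have h3 : 4 * ((k : ℝ) - 1) * (D / P) = (4 * ((k : ℝ) - 1) * D) / P := by ring
    rw [h2, h3]
    exact div_le_div_of_nonneg_right h1 hP1.le

end Pool.Agent.DCN
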