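import Pool.Agent.DCN.Lev

/-!
# DCN-Mom: moments of `|K(x) ∩ K(y)|` as averages (paper section 2)

On `Cl s C` the number `Io = |K(x) ∩ K(y)|` is `Σ_{a ∈ C} X a * Y a`, `X a = cl (insert x (C.erase a))`,
`Y a = cl (insert y (C.erase a))`; given `C`, the points `x` and `y` are independent, so the moments of `Io` are
averages of `nu a ^ 2` and of `ka a b ^ 2`.  `ka` is `nu + nu - de + he`, and the exceptional measure `he` is bounded by the
defect.
-/

namespace Pool.Agent.DCN

open Finset

variable {V : Type} [Fintype V] [DecidableEq V] {ι : Type} [Fintype ι] [DecidableEq ι]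

/-- the measure of the `x` with `Cl (C - a + x)` -/
noncomputable def nu (F : Multiset V → Prop) (k : ℕ) (C : Finset ι) (x a : ι) : (ι → V) → ℝ :=
  avg x (cl F k (insert x (C.erase a)))

/-- the measure of the `x` with `a, b ∈ K(x)` -/
noncomputable def ka (F : Multiset V → Prop) (k : ℕ) (C : Finset ι) (x a b : ι) : (ι → V) → ℝ :=
  avg x (fun s => cl F k (insert x (C.erase a)) s * cl F k (insert x (C.erase b)) s)

/-- the measure of the `x` with `Cl (C - a - b + x)` -/
noncomputable def de (F : Multiset V → Prop) (k : ℕ) (C : Finset ι) (x a b : ι) : (ι → V) → ℝ :=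
  avg x (cl F k (insert x ((C.erase a).erase b)))

/-- the measure of the `x` with `Cl (C - a - b + x)`, `a, b ∉ K(x)` -/
noncomputable def he (F : Multiset V → Prop) (k : ℕ) (C : Finset ι) (x a b : ι) : (ι → V) → ℝ :=
  avg x (fun s => (1 - cl F k (insert x (C.erase a)) s) * (1 - cl F k (insert x (C.erase b)) s) *
    cl F k (insert x ((C.erase a).erase b)) s)

variable {F : Multiset V → Prop} {k : ℕ}

private theorem Mom_card (s : ι → V) (C : Finset ι) (x y : ι) :
    Io F k C x y s =
      ∑ a ∈ C, cl F k (insert x (C.erase a)) s * cl F k (insert y (C.erase a)) s := by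
  classical
  have h1 : Kr F k s C x ∩ Kr F k s C y = C.filter (fun a => Cl F k s (insert x (C.erase a)) ∧
      Cl F k s (insert y (C.erase a))) := by
    ext a
    simp only [Kr, Finset.mem_inter, Finset.mem_filter]
    tauto
  have h2 : Io F k C x y s = ((C.filter (fun a => Cl F k s (insert x (C.erase a)) ∧
      Cl F k s (insert y (C.erase a)))).card : ℝ) := by
    rw [Io, h1]
  rw [h2, Finset.card_filter]
  push_cast
  refine Finset.sum_congr rfl fun a _ => ?_
  unfold cl
  by_cases hX : Cl F k s (insert x (C.erase a)) <;> by_cases hY : Cl F k s (insert y (C.erase a)) <;>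
    simp [hX, hY]

private theorem Mom_ind_cl {C : Finset ι} {x a : ι} (hx : x ∉ C) :
    Ind x (cl F k (C.erase a) : (ι → V) → ℝ) :=
  ind_cl (fun h => hx (Finset.mem_of_mem_erase h))

private theorem Mom_notMem {C : Finset ι} {x y a : ι} (hy : y ∉ C) (hxy : x ≠ y) :
    y ∉ insert x (C.erase a) := by
  intro h
  rcases Finset.mem_insert.1 h with h | h
  · exact hxy h.symm
  · exact hy (Finset.mem_of_mem_erase h)

/-- `E cl C X_a Y_a = E cl C nu_a ^ 2` -/
private theorem Mom_one [Nonempty V] {C : Finset ι} {x y : ι} (hx : x ∉ C) (hy : y ∉ C) (hxy : x ≠ y)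
    (a : ι) :
    EE (fun s : ι → V => cl F k C s *
      (cl F k (insert x (C.erase a)) s * cl F k (insert y (C.erase a)) s)) =
      EE (fun s : ι → V => cl F k C s * nu F k C x a s ^ 2) := by
  have h0 : (fun s : ι → V => cl F k C s *
      (cl F k (insert x (C.erase a)) s * cl F k (insert y (C.erase a)) s)) =
      (fun s : ι → V => (fun s : ι → V => cl F k C s * cl F k (insert x (C.erase a)) s) s *
        cl F k (insert y (C.erase a)) s) := by
    funext s; ring
  rw [h0, EE_mul_avg (a := x) (b := y)
    (ind_mul (ind_cl hy) (ind_cl (Mom_notMem hy hxy)))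
    (ind_cl (Mom_notMem hx hxy.symm))]
  congr 1
  funext s
  rw [avg_mul (ind_cl hx)]
  have h1 : avg y (cl F k (insert y (C.erase a))) s = nu F k C x a s :=
    (avg_swap (fun h => hx (Finset.mem_of_mem_erase h)) (fun h => hy (Finset.mem_of_mem_erase h)) s).symm
  rw [h1]
  unfold nu
  ring

/-- `E cl C (X_a X_b) (Y_a Y_b) = E cl C ka_ab ^ 2` -/
private theorem Mom_two [Nonempty V] {C : Finset ι} {x y : ι} (hx : x ∉ C) (hy : y ∉ C) (hxy : x ≠ y)
    (a b : ι) :
    EE (fun s : ι → V => cl F k C s *
      ((cl F k (insert x (C.erase a)) s * cl F k (insert x (C.erase b)) s) *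
        (cl F k (insert y (C.erase a)) s * cl F k (insert y (C.erase b)) s))) =
      EE (fun s : ι → V => cl F k C s * ka F k C x a b s ^ 2) := by
  have h0 : (fun s : ι → V => cl F k C s *
      ((cl F k (insert x (C.erase a)) s * cl F k (insert x (C.erase b)) s) *
        (cl F k (insert y (C.erase a)) s * cl F k (insert y (C.erase b)) s))) =
      (fun s : ι → V => (fun s : ι → V => cl F k C s *
        (fun s : ι → V => cl F k (insert x (C.erase a)) s * cl F k (insert x (C.erase b)) s) s) s *
        (fun s : ι → V => cl F k (insert y (C.erase a)) s * cl F k (insert y (C.erase b)) s) s) := by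
    funext s; ring
  rw [h0, EE_mul_avg (a := x) (b := y)
    (ind_mul (ind_cl hy) (ind_mul (ind_cl (Mom_notMem hy hxy)) (ind_cl (Mom_notMem hy hxy))))
    (ind_mul (ind_cl (Mom_notMem hx hxy.symm)) (ind_cl (Mom_notMem hx hxy.symm)))]
  congr 1
  funext s
  rw [avg_mul (ind_cl hx)]
  have h1 : avg y (fun s : ι → V => cl F k (insert y (C.erase a)) s * cl F k (insert y (C.erase b)) s) s =
      ka F k C x a b s :=
    (avg_swap_mul (fun h => hx (Finset.mem_of_mem_erase h)) (fun h => hy (Finset.mem_of_mem_erase h))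
      (fun h => hx (Finset.mem_of_mem_erase h)) (fun h => hy (Finset.mem_of_mem_erase h)) s).symm
  rw [h1]
  unfold ka
  ring

private theorem Mom_nu [Nonempty V] {C : Finset ι} {x : ι} (hx : x ∉ C) (f : (ι → V) → ℝ) :
    EE (fun s : ι → V => cl F k C s * avg x f s) = EE (fun s : ι → V => cl F k C s * f s) := by
  rw [← EE_avg x (fun s : ι → V => cl F k C s * f s)]
  congr 1
  funext s
  rw [avg_mul (ind_cl hx)]

theorem mom1 [Nonempty V] {C : Finset ι} {x y : ι} (hx : x ∉ C) (hy : y ∉ C) (hxy : x ≠ y) (t : ℝ) :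
    2 * t * (((k : ℝ) - 1) * pn (V := V) F k ι C.card -
      EE (fun s : ι → V => cl F k C s * De F k C x s)) - t ^ 2 * (C.card : ℝ) * pn (V := V) F k ι C.card ≤
    EE (fun s : ι → V => cl F k C s * Io F k C x y s) := by
  have h1 : EE (fun s : ι → V => cl F k C s * Io F k C x y s) =
      ∑ a ∈ C, EE (fun s : ι → V => cl F k C s * nu F k C x a s ^ 2) := by
    have h2 : (fun s : ι → V => cl F k C s * Io F k C x y s) =
        (fun s : ι → V => ∑ a ∈ C, cl F k C s *
          (cl F k (insert x (C.erase a)) s * cl F k (insert y (C.erase a)) s)) := by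
      funext s
      rw [Mom_card, Finset.mul_sum]
    rw [h2, EE_sum C (fun a (s : ι → V) => cl F k C s *
          (cl F k (insert x (C.erase a)) s * cl F k (insert y (C.erase a)) s))]
    exact Finset.sum_congr rfl fun a _ => Mom_one hx hy hxy a
  have h3 : ∀ a ∈ C, 2 * t * EE (fun s : ι → V => cl F k C s * cl F k (insert x (C.erase a)) s) -
      t ^ 2 * pn (V := V) F k ι C.card ≤ EE (fun s : ι → V => cl F k C s * nu F k C x a s ^ 2) := by
    intro a _
    have h4 : EE (fun s : ι → V => cl F k C s * cl F k (insert x (C.erase a)) s) =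
        EE (fun s : ι → V => cl F k C s * nu F k C x a s) :=
      (Mom_nu hx (cl F k (insert x (C.erase a)))).symm
    rw [h4, ← EE_cl (F := F) (k := k) (V := V) C, ← EE_mul_left, ← EE_mul_left, ← EE_sub]
    refine EE_mono fun s => ?_
    have h5 : 0 ≤ cl F k C s * (nu F k C x a s - t) ^ 2 := mul_nonneg (cl_nonneg _ _) (sq_nonneg _)
    nlinarith [h5]
  have h6 := Finset.sum_le_sum h3
  rw [h1]
  refine le_trans (le_of_eq ?_) h6
  rw [Finset.sum_sub_distrib, ← Finset.mul_sum, sum_first hx, Finset.sum_const, nsmul_eq_mul]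
  ring

theorem mom2 [Nonempty V] {C : Finset ι} {x y : ι} (hx : x ∉ C) (hy : y ∉ C) (hxy : x ≠ y) :
    EE (fun s : ι → V => cl F k C s * Io F k C x y s ^ 2) =
      EE (fun s : ι → V => cl F k C s * Io F k C x y s) +
      ∑ a ∈ C, ∑ b ∈ C.erase a, EE (fun s : ι → V => cl F k C s * ka F k C x a b s ^ 2) := by
  have h1 : (fun s : ι → V => cl F k C s * Io F k C x y s ^ 2) =
      (fun s : ι → V => cl F k C s * Io F k C x y s + ∑ a ∈ C, ∑ b ∈ C.erase a,
        cl F k C s * ((cl F k (insert x (C.erase a)) s * cl F k (insert x (C.erase b)) s) *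
        (cl F k (insert y (C.erase a)) s * cl F k (insert y (C.erase b)) s))) := by
    funext s
    rw [Mom_card]
    have h2 : (∑ a ∈ C, cl F k (insert x (C.erase a)) s * cl F k (insert y (C.erase a)) s) ^ 2 =
        (∑ a ∈ C, cl F k (insert x (C.erase a)) s * cl F k (insert y (C.erase a)) s) +
        ∑ a ∈ C, ∑ b ∈ C.erase a,
          ((cl F k (insert x (C.erase a)) s * cl F k (insert x (C.erase b)) s) *
          (cl F k (insert y (C.erase a)) s * cl F k (insert y (C.erase b)) s)) := by
      rw [sq, Finset.sum_mul_sum, ← Finset.sum_add_distrib]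
      refine Finset.sum_congr rfl fun a ha => ?_
      rw [← Finset.add_sum_erase C _ ha]
      congr 1
      · have hX := cl_mul_self (F := F) (k := k) (insert x (C.erase a)) s
        have hY := cl_mul_self (F := F) (k := k) (insert y (C.erase a)) s
        calc cl F k (insert x (C.erase a)) s * cl F k (insert y (C.erase a)) s *
              (cl F k (insert x (C.erase a)) s * cl F k (insert y (C.erase a)) s) =
            (cl F k (insert x (C.erase a)) s * cl F k (insert x (C.erase a)) s) *
              (cl F k (insert y (C.erase a)) s * cl F k (insert y (C.erase a)) s) := by ring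
          _ = _ := by rw [hX, hY]
      · refine Finset.sum_congr rfl fun b _ => ?_
        ring
    rw [h2, mul_add, Finset.mul_sum (s := C) (f := fun a => ∑ b ∈ C.erase a,
          ((cl F k (insert x (C.erase a)) s * cl F k (insert x (C.erase b)) s) *
          (cl F k (insert y (C.erase a)) s * cl F k (insert y (C.erase b)) s)))]
    congr 1
    exact Finset.sum_congr rfl fun a _ => by rw [Finset.mul_sum]
  rw [h1, EE_add (fun s : ι → V => cl F k C s * Io F k C x y s) (fun s : ι → V => ∑ a ∈ C,
    ∑ b ∈ C.erase a, cl F k C s * ((cl F k (insert x (C.erase a)) s * cl F k (insert x (C.erase b)) s) *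
        (cl F k (insert y (C.erase a)) s * cl F k (insert y (C.erase b)) s)))]
  congr 1
  rw [EE_sum C (fun a (s : ι → V) => ∑ b ∈ C.erase a, cl F k C s *
    ((cl F k (insert x (C.erase a)) s * cl F k (insert x (C.erase b)) s) *
        (cl F k (insert y (C.erase a)) s * cl F k (insert y (C.erase b)) s)))]
  refine Finset.sum_congr rfl fun a _ => ?_
  rw [EE_sum (C.erase a) (fun b (s : ι → V) => cl F k C s *
    ((cl F k (insert x (C.erase a)) s * cl F k (insert x (C.erase b)) s) *
        (cl F k (insert y (C.erase a)) s * cl F k (insert y (C.erase b)) s)))]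
  exact Finset.sum_congr rfl fun b _ => Mom_two hx hy hxy a b

private theorem Mom_point {C : Finset ι} {x a b : ι} (s : ι → V) :
    cl F k (insert x (C.erase a)) s * cl F k (insert x (C.erase b)) s =
      cl F k (insert x (C.erase a)) s + cl F k (insert x (C.erase b)) s -
        cl F k (insert x ((C.erase a).erase b)) s +
      (1 - cl F k (insert x (C.erase a)) s) * (1 - cl F k (insert x (C.erase b)) s) *
        cl F k (insert x ((C.erase a).erase b)) s := by
  have h1 : cl F k (insert x ((C.erase a).erase b)) s * cl F k (insert x (C.erase a)) s =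
      cl F k (insert x (C.erase a)) s :=
    cl_mul_of_sub (Finset.insert_subset_insert _ (Finset.erase_subset _ _)) s
  have h2 : cl F k (insert x ((C.erase a).erase b)) s * cl F k (insert x (C.erase b)) s =
      cl F k (insert x (C.erase b)) s :=
    cl_mul_of_sub (Finset.insert_subset_insert _ (Finset.erase_subset_erase _ (Finset.erase_subset _ _))) s
  linear_combination h1 + (1 - cl F k (insert x (C.erase a)) s) * h2

theorem ka_eq {C : Finset ι} {x a b : ι} (s : ι → V) :
    ka F k C x a b s = nu F k C x a s + nu F k C x b s - de F k C x a b s + he F k C x a b s := by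
  unfold ka nu de he avg
  rw [← add_div, ← sub_div, ← add_div, ← Finset.sum_add_distrib, ← Finset.sum_sub_distrib,
    ← Finset.sum_add_distrib]
  congr 1
  exact Finset.sum_congr rfl fun z _ => Mom_point (Function.update s x z)

theorem he_nonneg {C : Finset ι} {x a b : ι} (s : ι → V) : 0 ≤ he F k C x a b s := by
  unfold he avg
  refine div_nonneg (Finset.sum_nonneg fun z _ => ?_) (Nat.cast_nonneg _)
  exact mul_nonneg (mul_nonneg (sub_nonneg.2 (cl_le_one _ _)) (sub_nonneg.2 (cl_le_one _ _)))
    (cl_nonneg _ _)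

theorem ka_nonneg {C : Finset ι} {x a b : ι} (s : ι → V) : 0 ≤ ka F k C x a b s := by
  unfold ka avg
  exact div_nonneg (Finset.sum_nonneg fun z _ => mul_nonneg (cl_nonneg _ _) (cl_nonneg _ _))
    (Nat.cast_nonneg _)

theorem ka_le_one [Nonempty V] {C : Finset ι} {x a b : ι} (s : ι → V) : ka F k C x a b s ≤ 1 := by
  have h1 : ka F k C x a b s ≤ avg x (fun _ => 1) s :=
    avg_mono (fun s => mul_le_one₀ (cl_le_one _ _) (cl_nonneg _ _) (cl_le_one _ _)) s
  rwa [avg_const] at h1

theorem he_le_one [Nonempty V] {C : Finset ι} {x a b : ι} (s : ι → V) : he F k C x a b s ≤ 1 := by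
  have h1 : he F k C x a b s ≤ avg x (fun _ => 1) s := by
    refine avg_mono (fun s => ?_) s
    have h2 : (1 - cl F k (insert x (C.erase a)) s) * (1 - cl F k (insert x (C.erase b)) s) ≤ 1 :=
      mul_le_one₀ (by linarith [cl_nonneg (F := F) (k := k) (insert x (C.erase a)) s])
        (sub_nonneg.2 (cl_le_one _ _)) (by linarith [cl_nonneg (F := F) (k := k) (insert x (C.erase b)) s])
    exact mul_le_one₀ h2 (cl_nonneg _ _) (cl_le_one _ _)
  rwa [avg_const] at h1

theorem ka_sq [Nonempty V] {C : Finset ι} {x a b : ι} (s : ι → V) (r1 r2 : ℝ) :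
    (ka F k C x a b s - (2 * r1 - r2)) ^ 2 ≤ 4 * ((nu F k C x a s - r1) ^ 2 + (nu F k C x b s - r1) ^ 2 +
      (de F k C x a b s - r2) ^ 2 + he F k C x a b s) := by
  have e := ka_eq (F := F) (k := k) (C := C) (x := x) (a := a) (b := b) s
  have h3 := he_le_one (F := F) (k := k) (C := C) (x := x) (a := a) (b := b) s
  have h4 := he_nonneg (F := F) (k := k) (C := C) (x := x) (a := a) (b := b) s
  rw [e]
  generalize nu F k C x a s = A
  generalize nu F k C x b s = B
  generalize de F k C x a b s = D
  generalize he F k C x a b s = H at h3 h4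
  have h5 : H ^ 2 ≤ H := by nlinarith
  have h6 : (A + B - D + H - (2 * r1 - r2)) ^ 2 ≤
      4 * ((A - r1) ^ 2 + (B - r1) ^ 2 + (D - r2) ^ 2 + H ^ 2) := by
    nlinarith [sq_nonneg ((A - r1) - (B - r1)), sq_nonneg ((A - r1) + (D - r2)),
      sq_nonneg ((A - r1) - H), sq_nonneg ((B - r1) + (D - r2)), sq_nonneg ((B - r1) - H),
      sq_nonneg ((D - r2) + H)]
  linarith

/-- pointwise: the number of exceptional pairs is at most `2 |C|` times the defect -/
private theorem Mom_he {m : ℕ} (hT : Tu F k m (V := V) ι) {C : Finset ι} (hm : C.card + 1 = m) {x : ι}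
    (hx : x ∉ C) (s : ι → V) :
    (∑ a ∈ C, ∑ b ∈ C.erase a, cl F k C s *
      ((1 - cl F k (insert x (C.erase a)) s) *
        (1 - cl F k (insert x (C.erase b)) s) * cl F k (insert x ((C.erase a).erase b)) s)) ≤
      2 * (C.card : ℝ) * (cl F k C s * De F k C x s) := by
  classical
  by_cases hC : Cl F k s C
  swap
  · simp [cl_of_not hC]
  -- an edge through x
  have hn : ¬ Cl F k s (insert x C) := hT s (insert x C) (by rw [Finset.card_insert_of_notMem hx, hm])
  unfold Cl at hn
  push Not at hn
  obtain ⟨E, hE, hEc, hEF⟩ := hn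
  have hxE : x ∈ E := by
    by_contra h
    refine hC E (fun i hi => ?_) hEc hEF
    rcases Finset.mem_insert.1 (hE hi) with h' | h'
    · exact absurd (h' ▸ hi) h
    · exact h'
  -- the kernel is contained in the edge
  have hK : Kr F k s C x ⊆ E.erase x := by
    intro a ha
    simp only [Kr, Finset.mem_filter] at ha
    have hax : a ≠ x := fun h => hx (h ▸ ha.1)
    refine Finset.mem_erase.2 ⟨hax, ?_⟩
    by_contra h
    refine ha.2 E (fun i hi => ?_) hEc hEF
    rcases Finset.mem_insert.1 (hE hi) with h' | h'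
    · exact Finset.mem_insert.2 (Or.inl h')
    · refine Finset.mem_insert.2 (Or.inr (Finset.mem_erase.2 ⟨fun h'' => h (h'' ▸ hi), h'⟩))
  set R := (E.erase x) \ (Kr F k s C x) with hR
  have hRc : (R.card : ℝ) = De F k C x s := by
    have h1 : R.card = (E.erase x).card - (Kr F k s C x).card := Finset.card_sdiff_of_subset hK
    have h2 : (E.erase x).card = k - 1 := by rw [Finset.card_erase_of_mem hxE, hEc]
    have h3 : (Kr F k s C x).card ≤ (E.erase x).card := Finset.card_le_card hK
    have h4 : 1 ≤ k := by rw [← hEc]; exact Finset.card_pos.2 ⟨x, hxE⟩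
    unfold De
    rw [h1, Nat.cast_sub h3, h2, Nat.cast_sub h4]
    push_cast
    ring
  have hb : ∀ a ∈ C, ∀ b ∈ C.erase a, cl F k C s *
      ((1 - cl F k (insert x (C.erase a)) s) *
        (1 - cl F k (insert x (C.erase b)) s) * cl F k (insert x ((C.erase a).erase b)) s) ≤
      (if a ∈ R then (1 : ℝ) else 0) + (if b ∈ R then (1 : ℝ) else 0) := by
    intro a ha b hb
    have hbC : b ∈ C := Finset.mem_of_mem_erase hb
    have h0 : (0 : ℝ) ≤ (if a ∈ R then (1 : ℝ) else 0) + (if b ∈ R then (1 : ℝ) else 0) := by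
      split_ifs <;> norm_num
    by_cases hA : Cl F k s (insert x (C.erase a))
    · rw [cl_of hA]; simpa using h0
    by_cases hB : Cl F k s (insert x (C.erase b))
    · rw [cl_of hB]; simpa using h0
    by_cases hZ : Cl F k s (insert x ((C.erase a).erase b))
    swap
    · rw [cl_of_not hZ]; simpa using h0
    -- the edge is hit by a or b
    have hab : a ∈ E ∨ b ∈ E := by
      by_contra h
      push Not at h
      refine hZ E (fun i hi => ?_) hEc hEF
      rcases Finset.mem_insert.1 (hE hi) with h' | h'
      · exact Finset.mem_insert.2 (Or.inl h')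
      · refine Finset.mem_insert.2 (Or.inr (Finset.mem_erase.2 ⟨fun h'' => h.2 (h'' ▸ hi),
          Finset.mem_erase.2 ⟨fun h'' => h.1 (h'' ▸ hi), h'⟩⟩))
    have hRa : ∀ a ∈ C, a ∈ E → ¬ Cl F k s (insert x (C.erase a)) → a ∈ R := by
      intro a ha hE' hA
      refine Finset.mem_sdiff.2 ⟨Finset.mem_erase.2 ⟨fun h => hx (h ▸ ha), hE'⟩, fun h => ?_⟩
      simp only [Kr, Finset.mem_filter] at h
      exact hA h.2
    rw [cl_of hC, cl_of_not hA, cl_of_not hB, cl_of hZ]
    rcases hab with h | h
    · rw [if_pos (hRa a ha h hA)]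
      split_ifs <;> norm_num
    · rw [if_pos (hRa b hbC h hB)]
      split_ifs <;> norm_num
  have hRC : R ⊆ C := by
    intro i hi
    have h1 := (Finset.mem_sdiff.1 hi).1
    have h2 := Finset.mem_erase.1 h1
    rcases Finset.mem_insert.1 (hE h2.2) with h' | h'
    · exact absurd h' h2.1
    · exact h'
  have hs : (∑ a ∈ C, (if a ∈ R then (1 : ℝ) else 0)) = R.card := by
    rw [Finset.sum_ite_mem, Finset.inter_eq_right.2 hRC]
    simp
  calc (∑ a ∈ C, ∑ b ∈ C.erase a, cl F k C s *
      ((1 - cl F k (insert x (C.erase a)) s) *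
        (1 - cl F k (insert x (C.erase b)) s) * cl F k (insert x ((C.erase a).erase b)) s))
      ≤ ∑ a ∈ C, ∑ b ∈ C, ((if a ∈ R then (1 : ℝ) else 0) + (if b ∈ R then (1 : ℝ) else 0)) := by
        refine Finset.sum_le_sum fun a ha => ?_
        refine le_trans (Finset.sum_le_sum fun b hb' => hb a ha b hb') ?_
        refine Finset.sum_le_sum_of_subset_of_nonneg (Finset.erase_subset _ _) fun b _ _ => ?_
        split_ifs <;> norm_num
    _ = 2 * (C.card : ℝ) * (cl F k C s * De F k C x s) := by
        simp only [Finset.sum_add_distrib, Finset.sum_const, nsmul_eq_mul]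
        rw [← Finset.mul_sum, hs, cl_of hC, hRc]
        ring

/-- sum over the pairs of the measure of the exceptional points -/
theorem sum_he [Nonempty V] {m : ℕ} (hT : Tu F k m (V := V) ι) {C : Finset ι} (hm : C.card + 1 = m) {x : ι}
    (hx : x ∉ C) :
    (∑ a ∈ C, ∑ b ∈ C.erase a, EE (fun s : ι → V => cl F k C s * he F k C x a b s)) ≤
      2 * (C.card : ℝ) * EE (fun s : ι → V => cl F k C s * De F k C x s) := by
  have h1 : ∀ a b : ι, EE (fun s : ι → V => cl F k C s * he F k C x a b s) =
      EE (fun s : ι → V => cl F k C s * ((1 - cl F k (insert x (C.erase a)) s) *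
        (1 - cl F k (insert x (C.erase b)) s) * cl F k (insert x ((C.erase a).erase b)) s)) :=
    fun a b => Mom_nu hx _
  simp only [h1]
  have h2 : (∑ a ∈ C, ∑ b ∈ C.erase a, EE (fun s : ι → V => cl F k C s *
      ((1 - cl F k (insert x (C.erase a)) s) *
        (1 - cl F k (insert x (C.erase b)) s) * cl F k (insert x ((C.erase a).erase b)) s))) =
      EE (fun s : ι → V => ∑ a ∈ C, ∑ b ∈ C.erase a, cl F k C s *
      ((1 - cl F k (insert x (C.erase a)) s) *
        (1 - cl F k (insert x (C.erase b)) s) * cl F k (insert x ((C.erase a).erase b)) s)) := by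
    rw [EE_sum C (fun a (s : ι → V) => ∑ b ∈ C.erase a, cl F k C s *
      ((1 - cl F k (insert x (C.erase a)) s) *
        (1 - cl F k (insert x (C.erase b)) s) * cl F k (insert x ((C.erase a).erase b)) s))]
    refine Finset.sum_congr rfl fun a _ => ?_
    rw [EE_sum (C.erase a) (fun b (s : ι → V) => cl F k C s *
      ((1 - cl F k (insert x (C.erase a)) s) *
        (1 - cl F k (insert x (C.erase b)) s) * cl F k (insert x ((C.erase a).erase b)) s))]
  rw [h2, ← EE_mul_left]
  refine EE_mono fun s => ?_
  exact Mom_he hT hm hx s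

/-- the sum of the measures of the pairs in the kernel -/
theorem sum_ka [Nonempty V] {m : ℕ} (hT : Tu F k m (V := V) ι) {C : Finset ι} (hm : C.card + 1 = m) {x : ι}
    (hx : x ∉ C) (hk : 2 ≤ k) :
    (∑ a ∈ C, ∑ b ∈ C.erase a, EE (fun s : ι → V => cl F k C s * ka F k C x a b s)) ≤
      ((k : ℝ) - 1) * ((k : ℝ) - 2) * pn (V := V) F k ι C.card := by
  have h1 : ∀ a b : ι, EE (fun s : ι → V => cl F k C s * ka F k C x a b s) =
      EE (fun s : ι → V => cl F k C s * (cl F k (insert x (C.erase a)) s *
        cl F k (insert x (C.erase b)) s)) :=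
    fun a b => Mom_nu hx (fun s : ι → V => cl F k (insert x (C.erase a)) s *
        cl F k (insert x (C.erase b)) s)
  simp only [h1]
  have h2 : (∑ a ∈ C, ∑ b ∈ C.erase a, EE (fun s : ι → V => cl F k C s *
      (cl F k (insert x (C.erase a)) s * cl F k (insert x (C.erase b)) s))) =
      EE (fun s : ι → V => ∑ a ∈ C, ∑ b ∈ C.erase a, cl F k C s *
      (cl F k (insert x (C.erase a)) s * cl F k (insert x (C.erase b)) s)) := by
    rw [EE_sum C (fun a (s : ι → V) => ∑ b ∈ C.erase a, cl F k C s *
      (cl F k (insert x (C.erase a)) s * cl F k (insert x (C.erase b)) s))]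
    refine Finset.sum_congr rfl fun a _ => ?_
    rw [EE_sum (C.erase a) (fun b (s : ι → V) => cl F k C s *
      (cl F k (insert x (C.erase a)) s * cl F k (insert x (C.erase b)) s))]
  rw [h2, ← EE_cl (F := F) (k := k) (V := V) C, ← EE_mul_left]
  refine EE_mono fun s => ?_
  by_cases hC : Cl F k s C
  swap
  · simp [cl_of_not hC]
  have hn : ¬ Cl F k s (insert x C) := hT s (insert x C) (by rw [Finset.card_insert_of_notMem hx, hm])
  have h3 : ((Kr F k s C x).card : ℝ) = ∑ a ∈ C, cl F k (insert x (C.erase a)) s := by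
    unfold Kr cl
    rw [Finset.card_filter]
    push_cast
    rfl
  have h4 : (Kr F k s C x).card + 1 ≤ k := kr_card hx hC hn
  have h4' : ((Kr F k s C x).card : ℝ) + 1 ≤ (k : ℝ) := by exact_mod_cast h4
  have h5 : (∑ a ∈ C, ∑ b ∈ C.erase a, cl F k C s *
      (cl F k (insert x (C.erase a)) s * cl F k (insert x (C.erase b)) s)) =
      ((Kr F k s C x).card : ℝ) * ((Kr F k s C x).card : ℝ) - ((Kr F k s C x).card : ℝ) := by
    rw [h3, Finset.sum_mul_sum, ← Finset.sum_sub_distrib]
    refine Finset.sum_congr rfl fun a ha => ?_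
    rw [cl_of hC, ← Finset.add_sum_erase C _ ha,
      cl_mul_self (F := F) (k := k) (insert x (C.erase a)) s, add_sub_cancel_left]
    exact Finset.sum_congr rfl fun b _ => one_mul _
  rw [h5, cl_of hC, mul_one]
  have h6 : (0 : ℝ) ≤ ((Kr F k s C x).card : ℝ) := Nat.cast_nonneg _
  have h7 : (2 : ℝ) ≤ (k : ℝ) := by exact_mod_cast hk
  nlinarith

theorem sq_nu [Nonempty V] {C : Finset ι} {x a : ι} (ha : a ∈ C) :
    EE (fun s : ι → V => cl F k C s *
      (nu F k C x a s - pn (V := V) F k ι C.card / pn (V := V) F k ι (C.card - 1)) ^ 2) ≤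
      Va F k (C.erase a) x := by
  have hc : (C.erase a).card = C.card - 1 := Finset.card_erase_of_mem ha
  have hc1 : (C.erase a).card + 1 = C.card := by
    have := Finset.card_pos.2 ⟨a, ha⟩
    omega
  unfold Va
  rw [hc1, hc]
  refine EE_mono fun s => ?_
  exact mul_le_mul_of_nonneg_right (cl_anti (Finset.erase_subset _ _) s) (sq_nonneg _)

theorem sq_de [Nonempty V] {C : Finset ι} {x a b : ι} (ha : a ∈ C) (hb : b ∈ C.erase a) :
    EE (fun s : ι → V => cl F k C s *
      (de F k C x a b s - pn (V := V) F k ι (C.card - 1) / pn (V := V) F k ι (C.card - 2)) ^ 2) ≤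
      Va F k ((C.erase a).erase b) x := by
  have hc : (C.erase a).card = C.card - 1 := Finset.card_erase_of_mem ha
  have hc' : ((C.erase a).erase b).card = C.card - 2 := by
    rw [Finset.card_erase_of_mem hb, hc]; omega
  have hc1 : ((C.erase a).erase b).card + 1 = C.card - 1 := by
    have := Finset.card_pos.2 ⟨b, hb⟩
    omega
  unfold Va
  rw [hc1, hc']
  refine EE_mono fun s => ?_
  exact mul_le_mul_of_nonneg_right (cl_anti ((Finset.erase_subset _ _).trans (Finset.erase_subset _ _)) s)
    (sq_nonneg _)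

end Pool.Agent.DCN
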